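import Pool.Agent.H73.G.RA.NH23.Tup

/-!
# Functional independence of `j (τ_i)`, `j' (τ_i)` and `V_i`
-/

set_option autoImplicit false

open Filter Topology MvPolynomial

noncomputable section

namespace Pool.Agent.H73.ML

open Pool.Agent.Y685 Pool.Agent.Y776 Pool.Agent.Y776.AxJ
open Pool.Agent.Y776.Fam (AlgOver)
open Pool.Agent.Y776.Cv (FInd)
open Pool.Agent.NH23.Pair Pool.Agent.NH23.Tup

/-- the rational function of `j`, `j'`, `j''` and `λ` -/
def VV (l a b c : ℂ) : ℂ := 7 * a - 6912 - 6 * a * (a - 1728) * (c - l * b) / b ^ 2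

/-- recovering `j''` -/
theorem VV_inv {l a b c : ℂ} (ha : a ≠ 0) (ha' : a - 1728 ≠ 0) (hb : b ≠ 0) :
    c = l * b + b ^ 2 * (7 * a - 6912 - VV l a b c) / (6 * a * (a - 1728)) := by
  rw [VV]
  field_simp
  ring

variable {U : Set ℂ} {n : ℕ} {τ lam : Fin n → ℂ → ℂ}

/-- the functions -/
def yv (τ lam : Fin n → ℂ → ℂ) (k : Fin n × Fin 3) (z : ℂ) : ℂ :=
  (![jf (τ k.1 z), VV (lam k.1 z) (jf (τ k.1 z)) (deriv jf (τ k.1 z)) (deriv (deriv jf) (τ k.1 z)),
    deriv jf (τ k.1 z)] : Fin 3 → ℂ) k.2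

theorem yv_an (h : Tpl U τ) (hl : ∀ i, AnalyticOnNhd ℂ (lam i) U) (hd : ∀ i, ∀ z ∈ U, deriv jf (τ i z) ≠ 0)
    (k : Fin n × Fin 3) : AnalyticOnNhd ℂ (yv τ lam k) U := by
  rcases k with ⟨i, m⟩
  intro z hz
  have key : ∀ g : ℂ → ℂ, AnalyticOnNhd ℂ g {t : ℂ | 0 < t.im} → AnalyticAt ℂ (fun z => g (τ i z)) z := fun g hg =>
    AnalyticAt.fun_comp (g := g) (f := τ i) (hg _ (h.im i z hz)) (h.an i z hz)
  have k0 := key _ an_j
  have k1 := key _ an_j.deriv
  have k2 := key _ an_j.deriv.deriv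
  fin_cases m
  · exact k0
  · exact ((analyticAt_const.mul k0).sub analyticAt_const).sub ((((analyticAt_const.mul k0).mul
      (k0.sub analyticAt_const)).mul (k2.sub ((hl i z hz).mul k1))).div (k1.pow 2) (pow_ne_zero 2 (hd i z hz)))
  · exact k1

/-- **all the functions are independent** -/
theorem locV (h : Tpl U τ) (hn : 0 < n) (hl : ∀ i, AnalyticOnNhd ℂ (lam i) U) (hla : ∀ i, Alg U (lam i))
    (hd : ∀ i, ∀ z ∈ U, deriv jf (τ i z) ≠ 0) (h0 : ∀ i, ∀ z ∈ U, jf (τ i z) ≠ 0)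
    (h1 : ∀ i, ∀ z ∈ U, jf (τ i z) - 1728 ≠ 0) : ∀ t ∈ U, Pool.Agent.Y124.LocInd (yv τ lam) t := by
  choose G hG0 hG using h.alg
  choose L hL0 hL using hla
  refine loc_all h.fmj hn (y := yv τ lam) (yv_an h hl hd) (by simp [mul_comm])
    (G := (⋃ k, ((G k).coeffs : Set ℂ)) ∪ ⋃ k, ((L k).coeffs : Set ℂ))
    ((Set.countable_iUnion fun _ => Finset.countable_toSet _).union
      (Set.countable_iUnion fun _ => Finset.countable_toSet _)) ?_
  intro F hF z hz htr k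
  set K := clo F (insert z (Set.range fun k => yv τ lam k z)) with hK
  have mz : z ∈ K := subset_clo (Or.inl rfl)
  have mO : ∀ k, yv τ lam k z ∈ K := fun k => subset_clo (Or.inr ⟨k, rfl⟩)
  have mn : ∀ n : ℕ, (n : ℂ) ∈ K := fun n => natCast_mem _ n
  have m6 := mn 6
  have m7 := mn 7
  have m6912 := mn 6912
  have m1728 := mn 1728
  push_cast at m6 m7 m6912 m1728
  rcases k with ⟨i, m⟩ | i | i
  · have m0 : jf (τ i z) ∈ K := mO (i, 0)
    have mV : VV (lam i z) (jf (τ i z)) (deriv jf (τ i z)) (deriv (deriv jf) (τ i z)) ∈ K := mO (i, 1)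
    have m1 : deriv jf (τ i z) ∈ K := mO (i, 2)
    have mt : τ i z ∈ K := by
      have h1 : AlgOver F U (τ i) := algOver (hG0 i) (fun x hx => hF (Or.inl (Set.mem_iUnion.2 ⟨i, hx⟩))) (hG i)
      have h2 := h1.mem (le_refl F) hz htr
      exact clo_le (fun s hs => by rw [Set.mem_singleton_iff.1 hs]; exact mz) h2
    have ml : lam i z ∈ K := by
      have h1 : AlgOver F U (lam i) := algOver (hL0 i) (fun x hx => hF (Or.inr (Set.mem_iUnion.2 ⟨i, hx⟩))) (hL i)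
      have h2 := h1.mem (le_refl F) hz htr
      exact clo_le (fun s hs => by rw [Set.mem_singleton_iff.1 hs]; exact mz) h2
    have m2 : deriv (deriv jf) (τ i z) ∈ K := by
      rw [VV_inv (l := lam i z) (c := deriv (deriv jf) (τ i z)) (h0 i z hz) (h1 i z hz) (hd i z hz)]
      exact add_mem (mul_mem ml m1) (div_mem (mul_mem (pow_mem m1 2) (sub_mem (sub_mem (mul_mem m7 m0) m6912) mV))
        (mul_mem (mul_mem m6 m0) (sub_mem m0 m1728)))
    clear mO hK
    clear_value K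
    have key : ∀ m : Fin 4, b4 m (τ i z) ∈ K := by
      intro m
      fin_cases m
      · exact mt
      · exact m0
      · exact m1
      · exact m2
    exact key m
  · exact i.elim0
  · exact i.elim0

/-- the functions without `j'` -/
def yw (τ lam : Fin n → ℂ → ℂ) (k : Fin n × Fin 2) (z : ℂ) : ℂ :=
  (![jf (τ k.1 z), VV (lam k.1 z) (jf (τ k.1 z)) (deriv jf (τ k.1 z)) (deriv (deriv jf) (τ k.1 z))] : Fin 2 → ℂ) k.2

theorem yw_eq (k : Fin n × Fin 2) (z : ℂ) : yw τ lam k z = yv τ lam (k.1, k.2.castSucc) z := by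
  rcases k with ⟨i, m⟩
  fin_cases m <;> rfl

theorem locW (h : Tpl U τ) (hn : 0 < n) (hl : ∀ i, AnalyticOnNhd ℂ (lam i) U) (hla : ∀ i, Alg U (lam i))
    (hd : ∀ i, ∀ z ∈ U, deriv jf (τ i z) ≠ 0) (h0 : ∀ i, ∀ z ∈ U, jf (τ i z) ≠ 0)
    (h1 : ∀ i, ∀ z ∈ U, jf (τ i z) - 1728 ≠ 0) : ∀ t ∈ U, Pool.Agent.Y124.LocInd (yw τ lam) t := by
  intro t ht
  have h2 : Pool.Agent.Y124.LocInd (fun k : Fin n × Fin 2 => yv τ lam (k.1, k.2.castSucc)) t :=
    loc_comp (fun k : Fin n × Fin 2 => (k.1, k.2.castSucc)) (fun k k' hk => by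
      rcases k with ⟨i, m⟩
      rcases k' with ⟨i', m'⟩
      simp only [Prod.mk.injEq] at hk
      rw [hk.1, Fin.castSucc_injective _ hk.2]) (locV h hn hl hla hd h0 h1 t ht)
  have h3 : yw τ lam = fun k : Fin n × Fin 2 => yv τ lam (k.1, k.2.castSucc) := by
    funext k z
    exact yw_eq k z
  rw [h3]
  exact h2

end Pool.Agent.H73.ML
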