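import Pool.Agent.H73.ML.Cj

/-!
# Bounds for `θ_k` on compact sets
-/

set_option autoImplicit false

open UpperHalfPlane ModularForm EisensteinSeries
open H294ZP H294ZP.TF676 H294ZP.TA2
open Pool.Agent.NH23.CM (norm_qq iy iy_im)
open scoped ArithmeticFunction.sigma

noncomputable section

namespace Pool.Agent.H73.ML

theorem sig_le (n : ℕ) : σ 1 n ≤ n ^ 2 := by
  rw [ArithmeticFunction.sigma_one_apply]
  calc ∑ d ∈ n.divisors, d ≤ ∑ _d ∈ n.divisors, n :=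
        Finset.sum_le_sum fun d hd => Nat.divisor_le hd
    _ = n.divisors.card * n := by rw [Finset.sum_const, smul_eq_mul]
    _ ≤ n * n := Nat.mul_le_mul_right _ (Nat.card_divisors_le_self n)
    _ = n ^ 2 := by ring

theorem c2_le (n : ℕ) : ‖(c2 n : ℂ)‖ ≤ 50 * ((n + 2).choose 2 : ℝ) := by
  have h0 : ((n + 2).choose 2 : ℝ) = (n + 2) * (n + 1) / 2 := by
    rw [Nat.cast_choose_two]
    push_cast
    ring
  rw [h0, c2]
  split_ifs with h
  · subst h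
    norm_num
  · rw [Complex.norm_intCast]
    have h1 : ((σ 1 n : ℕ) : ℝ) ≤ (n : ℝ) ^ 2 := by exact_mod_cast sig_le n
    have h2 : (0 : ℝ) ≤ ((σ 1 n : ℕ) : ℝ) := Nat.cast_nonneg _
    have h3 : (0 : ℝ) ≤ n := Nat.cast_nonneg _
    push_cast
    rw [abs_mul, abs_of_nonneg h2, abs_neg, abs_of_pos (by norm_num : (0 : ℝ) < 24)]
    nlinarith

theorem norm_E2_le (w : ℍ) : ‖E2 w‖ ≤ 50 / (1 - Real.exp (-(2 * Real.pi * w.im))) ^ 3 := by
  set r : ℝ := Real.exp (-(2 * Real.pi * w.im)) with hr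
  have r0 : 0 < r := Real.exp_pos _
  have r1 : r < 1 := by
    rw [hr, Real.exp_lt_one_iff]
    have := w.im_pos
    have := Real.pi_pos
    have : 0 < 2 * Real.pi * w.im := by positivity
    linarith
  have hs := hasSum_choose_mul_geometric_of_norm_lt_one (𝕜 := ℝ) 2 (r := r) (by rwa [Real.norm_of_nonneg r0.le])
  have hs' := hs.mul_left 50
  have h1 : ‖∑' n, (c2 n : ℂ) * qq 1 w ^ n‖ ≤ 50 * (1 / (1 - r) ^ (2 + 1)) := by
    refine tsum_of_norm_bounded hs' fun n => ?_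
    rw [norm_mul, norm_pow, norm_qq, ← hr]
    have h2 := c2_le n
    have h3 : (0 : ℝ) < r ^ n := by positivity
    calc ‖(c2 n : ℂ)‖ * r ^ n ≤ 50 * ((n + 2).choose 2 : ℝ) * r ^ n := by gcongr
      _ = _ := by ring
  rw [(c2_sum w).tsum_eq] at h1
  refine h1.trans (le_of_eq ?_)
  norm_num
  ring

theorem one_sub_exp {x : ℝ} (hx : 0 < x) : x / (1 + x) ≤ 1 - Real.exp (-x) := by
  have h1 : Real.exp (-x) ≤ 1 / (1 + x) := by
    rw [Real.exp_neg, ← one_div]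
    apply one_div_le_one_div_of_le (by linarith)
    linarith [Real.add_one_le_exp x]
  have h2 : x / (1 + x) = 1 - 1 / (1 + x) := by
    field_simp
    ring
  linarith

/-- `E₂` near the real axis -/
theorem E2_bound {y : ℝ} (hy : 0 < y) : ∃ C : ℝ, 1 ≤ C ∧ ∀ (N : ℕ), 0 < N → ∀ w : ℍ, y / N ≤ w.im → ‖E2 w‖ ≤ C * (N : ℝ) ^ 3 := by
  set κ : ℝ := 2 * Real.pi * y / (1 + 2 * Real.pi * y) with hκ
  have hpi := Real.pi_pos
  have hκ0 : 0 < κ := by positivity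
  refine ⟨50 / κ ^ 3 + 1, by linarith [show (0 : ℝ) < 50 / κ ^ 3 by positivity], fun N hN w hw => ?_⟩
  have hN1 : (1 : ℝ) ≤ N := by exact_mod_cast hN
  have hN0 : (0 : ℝ) < N := by linarith
  refine (norm_E2_le w).trans ?_
  have h1 : κ / N ≤ 1 - Real.exp (-(2 * Real.pi * w.im)) := by
    have h2 := one_sub_exp (x := 2 * Real.pi * (y / N)) (by positivity)
    have h3 : Real.exp (-(2 * Real.pi * w.im)) ≤ Real.exp (-(2 * Real.pi * (y / N))) := by
      apply Real.exp_le_exp.2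
      apply neg_le_neg
      gcongr
    have h4 : κ / N ≤ 2 * Real.pi * (y / N) / (1 + 2 * Real.pi * (y / N)) := by
      rw [hκ, div_div, div_le_div_iff₀ (by positivity) (by positivity)]
      have h5 : 2 * Real.pi * (y / N) * N = 2 * Real.pi * y := by field_simp
      calc 2 * Real.pi * y * (1 + 2 * Real.pi * (y / N)) = 2 * Real.pi * (y / N) * (N + 2 * Real.pi * (y / N) * N) := by
            field_simp
        _ = 2 * Real.pi * (y / N) * (N + 2 * Real.pi * y) := by rw [h5]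
        _ ≤ 2 * Real.pi * (y / N) * ((1 + 2 * Real.pi * y) * N) := by
          have : (N : ℝ) + 2 * Real.pi * y ≤ (1 + 2 * Real.pi * y) * N := by
            have : 0 ≤ 2 * Real.pi * y := by positivity
            nlinarith
          gcongr
    linarith
  have h6 : 0 < κ / N := by positivity
  calc 50 / (1 - Real.exp (-(2 * Real.pi * w.im))) ^ 3 ≤ 50 / (κ / N) ^ 3 := by gcongr
    _ = 50 / κ ^ 3 * (N : ℝ) ^ 3 := by field_simp
    _ ≤ (50 / κ ^ 3 + 1) * (N : ℝ) ^ 3 := by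
      have : (0 : ℝ) < (N : ℝ) ^ 3 := by positivity
      nlinarith

theorem summ_cw {r : ℝ} (h0 : 0 ≤ r) (h1 : r < 1) : Summable fun n : ℕ => ‖(cw n : ℂ)‖ * r ^ n := by
  set s : ℝ := (1 + r) / 2 with hs
  have s0 : 0 < s := by rw [hs]; linarith
  have s1 : s < 1 := by rw [hs]; linarith
  have hrs : r ≤ s := by rw [hs]; linarith
  have hy : 0 < -Real.log s / (2 * Real.pi) := div_pos (neg_pos.2 (Real.log_neg s0 s1)) (by positivity)
  have h2 := (cw_sum (iy _ hy)).summable.norm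
  have h3 : ‖qq 1 (iy _ hy)‖ = s := by
    rw [norm_qq, iy_im]
    have hpi : (Real.pi : ℝ) ≠ 0 := Real.pi_ne_zero
    rw [show -(2 * Real.pi * (-Real.log s / (2 * Real.pi))) = Real.log s by field_simp, Real.exp_log s0]
  refine Summable.of_nonneg_of_le (fun n => by positivity) (fun n => ?_) h2
  rw [norm_mul, norm_pow, h3]
  gcongr

theorem wt_bound {y₁ : ℝ} (hy : 0 < y₁) (y₂ : ℝ) : ∃ C : ℝ, 1 ≤ C ∧ ∀ w : ℍ, y₁ ≤ w.im → w.im ≤ y₂ → ‖wt w‖ ≤ C := by
  set r : ℝ := Real.exp (-(2 * Real.pi * y₁)) with hr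
  have hpi := Real.pi_pos
  have r1 : r < 1 := by
    rw [hr, Real.exp_lt_one_iff]
    have : 0 < 2 * Real.pi * y₁ := by positivity
    linarith
  have hS := summ_cw (Real.exp_pos _).le r1
  refine ⟨max 1 (Real.exp (2 * Real.pi * y₂) * ∑' n, ‖(cw n : ℂ)‖ * r ^ n), le_max_left _ _, fun u hu hu2 => ?_⟩
  have h1 : ‖qq 1 u‖ ≤ r := by
    rw [norm_qq, hr]
    apply Real.exp_le_exp.2
    nlinarith
  have h2 : ‖qq 1 u * wt u‖ ≤ ∑' n, ‖(cw n : ℂ)‖ * r ^ n := by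
    rw [← (cw_sum u).tsum_eq]
    refine tsum_of_norm_bounded hS.hasSum fun n => ?_
    rw [norm_mul, norm_pow]
    gcongr
  rw [norm_mul, norm_qq, Real.exp_neg] at h2
  have h3 := Real.exp_pos (2 * Real.pi * u.im)
  rw [inv_mul_le_iff₀ h3] at h2
  refine h2.trans ((mul_le_mul_of_nonneg_right ?_ (tsum_nonneg fun n => by positivity)).trans (le_max_right _ _))
  apply Real.exp_le_exp.2
  gcongr

/-- the bound for `θ` -/
theorem thb_bound {y₁ : ℝ} (hy : 0 < y₁) (y₂ : ℝ) : ∃ C : ℝ, 1 ≤ C ∧ ∀ (N : ℕ), 0 < N → ∀ (a d : ℕ) (b : ℤ) (ha : 0 < a)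
    (hd : 0 < d), a * d = N → ∀ w : ℍ, y₁ ≤ w.im → w.im ≤ y₂ → ‖thb N b ha hd w‖ ≤ C * (N : ℝ) ^ 5 := by
  obtain ⟨C₁, hC₁, h1⟩ := E2_bound hy
  obtain ⟨C₂, hC₂, h2⟩ := wt_bound hy y₂
  refine ⟨2 * C₁ * C₂, by nlinarith, fun N hN a d b ha hd had w hw1 hw2 => ?_⟩
  have hN1 : (1 : ℝ) ≤ N := by exact_mod_cast hN
  have ha' : (1 : ℝ) ≤ a := by exact_mod_cast ha
  have hd' : (1 : ℝ) ≤ d := by exact_mod_cast hd
  have hadr : (a : ℝ) * d = N := by exact_mod_cast had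
  have haN : (a : ℝ) ≤ N := by rw [← hadr]; nlinarith
  have him : (hk a d b ha hd w).im = a * w.im / d := by
    have h1 := hk_mul a d b ha hd w
    have h2 := congrArg Complex.im h1
    rw [mul_comm, ← Complex.ofReal_natCast, Complex.im_ofReal_mul, Complex.add_im, ← Complex.ofReal_natCast,
      Complex.im_ofReal_mul, Complex.intCast_im, add_zero] at h2
    rw [eq_div_iff (by positivity), mul_comm]
    exact h2
  have g1 : y₁ / N ≤ (hk a d b ha hd w).im := by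
    rw [him, ← hadr, div_le_div_iff₀ (by positivity) (by positivity)]
    calc y₁ * d ≤ w.im * d := by gcongr
      _ = 1 * w.im * (1 * d) := by ring
      _ ≤ a * w.im * (a * d) := by
        have := w.im_pos
        gcongr
  have g2 : y₁ / N ≤ w.im := (div_le_self hy.le hN1).trans hw1
  have e1 := h1 N hN _ g1
  have e2 := h1 N hN _ g2
  have e3 := h2 w hw1 hw2
  rw [thb, norm_mul]
  have e4 : ‖(a : ℂ) ^ 2 * E2 (hk a d b ha hd w) - N * E2 w‖ ≤ 2 * C₁ * (N : ℝ) ^ 5 := by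
    refine (norm_sub_le _ _).trans ?_
    rw [norm_mul, norm_mul, norm_pow, Complex.norm_natCast, Complex.norm_natCast]
    have e5 : (a : ℝ) ^ 2 * ‖E2 (hk a d b ha hd w)‖ ≤ (N : ℝ) ^ 2 * (C₁ * (N : ℝ) ^ 3) := by gcongr
    have e6 : (N : ℝ) * ‖E2 w‖ ≤ (N : ℝ) ^ 2 * (C₁ * (N : ℝ) ^ 3) := by
      have : (N : ℝ) ≤ (N : ℝ) ^ 2 := by nlinarith
      gcongr
    calc _ ≤ (N : ℝ) ^ 2 * (C₁ * (N : ℝ) ^ 3) + (N : ℝ) ^ 2 * (C₁ * (N : ℝ) ^ 3) := add_le_add e5 e6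
      _ = 2 * C₁ * (N : ℝ) ^ 5 := by ring
  calc _ ≤ 2 * C₁ * (N : ℝ) ^ 5 * C₂ := by gcongr
    _ = _ := by ring

end Pool.Agent.H73.ML
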