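import Mathlib
import Pool.Agent.H73.G.R8.H294ZP.Stmts

/-!
# The function `E₂ - 3 / (π y)` and the form `E₄ E₆ / Δ` of weight `-2`
-/

set_option autoImplicit false

open UpperHalfPlane ModularForm EisensteinSeries MatrixGroups

noncomputable section

namespace Pool.Agent.H73.ML

/-- `E₂ - 3 / (π y)` -/
def es (w : ℍ) : ℂ := E2 w - 3 / ((Real.pi : ℂ) * (w.im : ℂ))

/-- `E₄ E₆ / Δ` -/
def wt (w : ℍ) : ℂ := E₄ w * E₆ w / discriminant w

/-- the denominator -/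
def dn (γ : SL(2, ℤ)) (w : ℍ) : ℂ := ((γ 1 0 : ℤ) : ℂ) * w + ((γ 1 1 : ℤ) : ℂ)

theorem dn_eq (γ : SL(2, ℤ)) (w : ℍ) : UpperHalfPlane.denom (γ : GL (Fin 2) ℝ) w = dn γ w := by
  simp [dn, UpperHalfPlane.denom]

theorem dn_ne (γ : SL(2, ℤ)) (w : ℍ) : dn γ w ≠ 0 := by
  rw [← dn_eq]
  exact UpperHalfPlane.denom_ne_zero _ w

theorem im_smul (γ : SL(2, ℤ)) (w : ℍ) : ((γ • w).im : ℂ) * (dn γ w * (starRingEnd ℂ) (dn γ w)) = w.im := by
  have h := ModularGroup.im_smul_eq_div_normSq γ w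
  rw [Complex.mul_conj, h, ← dn_eq]
  have h0 : Complex.normSq (UpperHalfPlane.denom (γ : GL (Fin 2) ℝ) w) ≠ 0 := by
    rw [dn_eq]
    exact (Complex.normSq_pos.2 (dn_ne γ w)).ne'
  push_cast
  field_simp

theorem E2_smul (γ : SL(2, ℤ)) (w : ℍ) : E2 (γ • w) = dn γ w ^ 2 * (E2 w - 6 * Complex.I * (γ 1 0 : ℤ) /
    (Real.pi * dn γ w)) := by
  have h := congrFun (E2_slash_action γ) w
  rw [ModularForm.SL_slash_apply, Pi.sub_apply, Pi.smul_apply, D2, riemannZeta_two, dn_eq] at h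
  have h0 := dn_ne γ w
  have hpi : (Real.pi : ℂ) ≠ 0 := by exact_mod_cast Real.pi_ne_zero
  have h1 : E2 (γ • w) = dn γ w ^ 2 * (E2 (γ • w) * dn γ w ^ (-2 : ℤ)) := by
    have : dn γ w ^ (-2 : ℤ) = (dn γ w ^ 2)⁻¹ := by
      rw [zpow_neg]
      rfl
    rw [this]
    field_simp
  rw [h1, h]
  congr 2
  rw [smul_eq_mul]
  field_simp

theorem es_smul (γ : SL(2, ℤ)) (w : ℍ) : es (γ • w) = dn γ w ^ 2 * es w := by
  have h0 := dn_ne γ w
  have hpi : (Real.pi : ℂ) ≠ 0 := by exact_mod_cast Real.pi_ne_zero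
  have him : (w.im : ℂ) ≠ 0 := by exact_mod_cast w.im_pos.ne'
  have him' : ((γ • w).im : ℂ) ≠ 0 := by exact_mod_cast (γ • w).im_pos.ne'
  have hc : (starRingEnd ℂ) (dn γ w) ≠ 0 := by
    rw [Ne, map_eq_zero]
    exact h0
  have h1 := im_smul γ w
  have h2 : dn γ w - (starRingEnd ℂ) (dn γ w) = 2 * Complex.I * (γ 1 0 : ℤ) * w.im := by
    rw [Complex.sub_conj]
    have : (dn γ w).im = (γ 1 0 : ℤ) * w.im := by simp [dn]
    rw [this]
    push_cast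
    ring
  have h3 : (3 : ℂ) / (Real.pi * (γ • w).im) = 3 * (dn γ w * (starRingEnd ℂ) (dn γ w)) / (Real.pi * w.im) := by
    rw [← h1]
    field_simp
  rw [es, es, E2_smul, h3]
  field_simp
  linear_combination 3 * h2

theorem E4_smul (γ : SL(2, ℤ)) (w : ℍ) : E₄ (γ • w) = dn γ w ^ 4 * E₄ w := by
  have h4 : E₄ (γ • w) = (denom γ w) ^ (4 : ℤ) * E₄ w :=
    SlashInvariantForm.slash_action_eqn' E₄ (MonoidHom.mem_range.mpr ⟨γ, rfl⟩) w
  rw [h4, dn_eq]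
  rfl

theorem E6_smul (γ : SL(2, ℤ)) (w : ℍ) : E₆ (γ • w) = dn γ w ^ 6 * E₆ w := by
  have h4 : E₆ (γ • w) = (denom γ w) ^ (6 : ℤ) * E₆ w :=
    SlashInvariantForm.slash_action_eqn' E₆ (MonoidHom.mem_range.mpr ⟨γ, rfl⟩) w
  rw [h4, dn_eq]
  rfl

theorem disc_smul (γ : SL(2, ℤ)) (w : ℍ) : discriminant (γ • w) = dn γ w ^ 12 * discriminant w := by
  have h12 : discriminant (γ • w) = (denom γ w) ^ (12 : ℤ) * discriminant w := by
    have := SlashInvariantForm.slash_action_eqn' CuspForm.discriminant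
      (MonoidHom.mem_range.mpr ⟨γ, rfl⟩) w
    exact this
  rw [h12, dn_eq]
  rfl

theorem wt_smul (γ : SL(2, ℤ)) (w : ℍ) : dn γ w ^ 2 * wt (γ • w) = wt w := by
  have h0 := dn_ne γ w
  have hd := discriminant_ne_zero w
  rw [wt, wt, E4_smul, E6_smul, disc_smul]
  field_simp

end Pool.Agent.H73.ML
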