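import Pool.Agent.H73.G.R8.H294ZP.TA1
import Pool.Agent.H73.G.R8.H676R4.ZPTF
import Pool.Agent.H73.ML.E2s

/-!
# The functions `θ_k`
-/

set_option autoImplicit false

open UpperHalfPlane ModularForm EisensteinSeries MatrixGroups FixedDetMatrices Matrix
open H294ZP H294ZP.TF676

noncomputable section

namespace Pool.Agent.H73.ML

variable {N : ℕ}

/-- the function attached to a representative -/
def th (hN : 0 < N) (k : reps (N : ℤ)) (w : ℍ) : ℂ :=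
  (((k.1.1 0 0 : ℤ) : ℂ) ^ 2 * E2 (hf hN k w) - N * E2 w) * wt w

theorem hf_im (hN : 0 < N) (k : reps (N : ℤ)) (w : ℍ) :
    ((hf hN k w).im : ℂ) * (k.1.1 1 1 : ℤ) = (k.1.1 0 0 : ℤ) * w.im := by
  have h := congrArg Complex.im (hf_mul hN k w)
  simp only [Complex.mul_im, Complex.add_im, Complex.intCast_re, Complex.intCast_im, mul_zero, add_zero,
    zero_add, zero_mul] at h
  have h' : (hf hN k w).im * ((k.1.1 1 1 : ℤ) : ℝ) = ((k.1.1 0 0 : ℤ) : ℝ) * w.im := h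
  exact_mod_cast h'

theorem ad_eq (hN : 0 < N) (k : reps (N : ℤ)) : ((k.1.1 0 0 : ℤ) : ℂ) * (k.1.1 1 1 : ℤ) = N := by
  have h1 := det_eq k.1
  rw [(reps_pos hN k).2.2.2.2.2, mul_zero, sub_zero] at h1
  exact_mod_cast h1

theorem a_ne (hN : 0 < N) (k : reps (N : ℤ)) : ((k.1.1 0 0 : ℤ) : ℂ) ≠ 0 := by
  intro h
  have := ad_eq hN k
  rw [h, zero_mul] at this
  exact hN.ne' (by exact_mod_cast this.symm)

theorem d_ne (hN : 0 < N) (k : reps (N : ℤ)) : ((k.1.1 1 1 : ℤ) : ℂ) ≠ 0 := by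
  intro h
  have := ad_eq hN k
  rw [h, mul_zero] at this
  exact hN.ne' (by exact_mod_cast this.symm)

theorem th_es (hN : 0 < N) (k : reps (N : ℤ)) (w : ℍ) :
    th hN k w = (((k.1.1 0 0 : ℤ) : ℂ) ^ 2 * es (hf hN k w) - N * es w) * wt w := by
  have h1 := hf_im hN k w
  have h2 := ad_eq hN k
  have ha := a_ne hN k
  have hd := d_ne hN k
  have hpi : (Real.pi : ℂ) ≠ 0 := by exact_mod_cast Real.pi_ne_zero
  have him : (w.im : ℂ) ≠ 0 := by exact_mod_cast w.im_pos.ne'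
  have him' : ((hf hN k w).im : ℂ) ≠ 0 := by exact_mod_cast (hf hN k w).im_pos.ne'
  rw [th, es, es]
  congr 1
  have h3 : ((k.1.1 0 0 : ℤ) : ℂ) ^ 2 * (3 / (Real.pi * (hf hN k w).im)) = N * (3 / (Real.pi * w.im)) := by
    rw [← h2]
    field_simp
    linear_combination -h1
  linear_combination h3

/-- the representative of a class -/
theorem key2 (hN : 0 < N) (A : FixedDetMatrix (Fin 2) ℤ (N : ℤ)) (τ w : ℍ)
    (hw : (w : ℂ) * ((A.1 1 0 : ℤ) * τ + (A.1 1 1 : ℤ)) = (A.1 0 0 : ℤ) * τ + (A.1 0 1 : ℤ)) :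
    (A.1 1 0 : ℤ) * (τ : ℂ) + (A.1 1 1 : ℤ) ≠ 0 ∧
    (N : ℂ) ^ 2 * es w = (((red hN A).1.1 0 0 : ℤ) : ℂ) ^ 2 * es (hf hN (red hN A) τ) *
      ((A.1 1 0 : ℤ) * (τ : ℂ) + (A.1 1 1 : ℤ)) ^ 2 := by
  obtain ⟨g, hg⟩ := reduce_orbit A
  have hv := hf_mul hN (red hN A) τ
  have h10 : (red hN A).1.1 1 0 = 0 := (reps_pos hN (red hN A)).2.2.2.2.2
  have had := ad_eq hN (red hN A)
  have hdd := d_ne hN (red hN A)
  have hR : (red hN A).1 = g • A := hg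
  set v := hf hN (red hN A) τ with hvdef
  have e00 := smul_entries g A 0 0
  have e01 := smul_entries g A 0 1
  have e10 := smul_entries g A 1 0
  have e11 := smul_entries g A 1 1
  have e11' : (((red hN A).1.1 1 1 : ℤ) : ℂ) = (g.1 1 0 : ℤ) * (A.1 0 1 : ℤ) + (g.1 1 1 : ℤ) * (A.1 1 1 : ℤ) := by
    rw [hR, e11]
    push_cast
    ring
  rw [hR] at h10
  rw [hR, e00, e01, ← hR] at hv
  rw [e10] at h10
  have h10' : ((g.1 1 0 : ℤ) : ℂ) * (A.1 0 0 : ℤ) + (g.1 1 1 : ℤ) * (A.1 1 0 : ℤ) = 0 := by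
    exact_mod_cast h10
  push_cast at hv
  rw [e11'] at hv
  set m : ℂ := (A.1 1 0 : ℤ) * τ + (A.1 1 1 : ℤ) with hm
  set n : ℂ := (A.1 0 0 : ℤ) * τ + (A.1 0 1 : ℤ) with hn
  have hdet : ((A.1 0 0 : ℤ) : ℂ) * (A.1 1 1 : ℤ) - (A.1 0 1 : ℤ) * (A.1 1 0 : ℤ) = N := by
    exact_mod_cast det_eq A
  have hm0 : m ≠ 0 := by
    intro h0
    rw [h0, mul_zero] at hw
    have h2 : ((A.1 0 0 : ℤ) : ℂ) * m - (A.1 1 0 : ℤ) * n = N := by
      rw [hm, hn, ← hdet]; ring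
    rw [h0, ← hw] at h2
    simp only [mul_zero, sub_zero] at h2
    exact hN.ne' (by exact_mod_cast h2.symm)
  have h4 : ((g.1 1 0 : ℤ) : ℂ) * n + (g.1 1 1 : ℤ) * m = (((red hN A).1.1 1 1 : ℤ) : ℂ) := by
    rw [hm, hn, e11']
    linear_combination (τ : ℂ) * h10'
  have h3 : (v : ℂ) * ((g.1 1 0 : ℤ) * n + (g.1 1 1 : ℤ) * m) =
      (g.1 0 0 : ℤ) * n + (g.1 0 1 : ℤ) * m := by
    rw [h4, e11', hv, hm, hn]
    ring
  have h5 : (v : ℂ) * ((g.1 1 0 : ℤ) * w + (g.1 1 1 : ℤ)) = (g.1 0 0 : ℤ) * w + (g.1 0 1 : ℤ) := by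
    apply mul_right_cancel₀ hm0
    calc (v : ℂ) * ((g.1 1 0 : ℤ) * w + (g.1 1 1 : ℤ)) * m
        = (v : ℂ) * ((g.1 1 0 : ℤ) * (w * m) + (g.1 1 1 : ℤ) * m) := by ring
      _ = (g.1 0 0 : ℤ) * (w * m) + (g.1 0 1 : ℤ) * m := by rw [hw, h3]
      _ = ((g.1 0 0 : ℤ) * w + (g.1 0 1 : ℤ)) * m := by ring
  have hdn : dn g w * m = (((red hN A).1.1 1 1 : ℤ) : ℂ) := by
    rw [← h4, dn, ← hw]
    ring
  have hvg : v = g • w := by
    apply UpperHalfPlane.ext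
    rw [coe_specialLinearGroup_apply]
    have hne : ((g.1 1 0 : ℤ) : ℂ) * w + (g.1 1 1 : ℤ) ≠ 0 := dn_ne g w
    have h6 : (v : ℂ) = ((g.1 0 0 : ℤ) * w + (g.1 0 1 : ℤ)) / ((g.1 1 0 : ℤ) * w + (g.1 1 1 : ℤ)) := by
      rw [eq_div_iff hne]
      exact h5
    rw [h6]
    simp
  refine ⟨hm0, ?_⟩
  rw [hvg, es_smul, ← had]
  rw [← hdn]
  ring

/-- the functions are permuted -/
theorem th_perm (hN : 0 < N) (γ : SL(2, ℤ)) : ∃ σ : Equiv.Perm (reps (N : ℤ)), ∀ k τ,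
    th hN k (γ • τ) = th hN (σ k) τ := by
  classical
  have hinj : Function.Injective (fun k : reps (N : ℤ) => red hN (rmul k.1 γ)) := by
    intro k k' hkk
    simp only at hkk
    have h1 : reduce (rmul k.1 γ) = reduce (rmul k'.1 γ) := congrArg Subtype.val hkk
    obtain ⟨g, hg⟩ := reduce_orbit (rmul k.1 γ)
    obtain ⟨g', hg'⟩ := reduce_orbit (rmul k'.1 γ)
    rw [hg, hg', smul_rmul, smul_rmul] at h1
    have h2 := rmul_inj γ h1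
    have h3 : k'.1 = (g'⁻¹ * g) • k.1 := by
      rw [mul_smul, h2, inv_smul_smul]
    exact Subtype.ext (reps_unique (by exact_mod_cast hN) k.2 k'.2 _ h3)
  refine ⟨Equiv.ofBijective _ (Finite.injective_iff_bijective.1 hinj), fun k τ => ?_⟩
  show th hN k (γ • τ) = th hN (red hN (rmul k.1 γ)) τ
  set w := γ • τ with hwd
  have h1 := hf_mul hN k w
  have h10 : k.1.1 1 0 = 0 := (reps_pos hN k).2.2.2.2.2
  have e10 : (rmul k.1 γ).1 1 0 = k.1.1 1 1 * γ.1 1 0 := by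
    show (k.1.1 * γ.1) 1 0 = _
    simp [Matrix.mul_apply, Fin.sum_univ_two, h10]
  have e11 : (rmul k.1 γ).1 1 1 = k.1.1 1 1 * γ.1 1 1 := by
    show (k.1.1 * γ.1) 1 1 = _
    simp [Matrix.mul_apply, Fin.sum_univ_two, h10]
  have e00 : (rmul k.1 γ).1 0 0 = k.1.1 0 0 * γ.1 0 0 + k.1.1 0 1 * γ.1 1 0 := by
    show (k.1.1 * γ.1) 0 0 = _
    simp [Matrix.mul_apply, Fin.sum_univ_two]
  have e01 : (rmul k.1 γ).1 0 1 = k.1.1 0 0 * γ.1 0 1 + k.1.1 0 1 * γ.1 1 1 := by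
    show (k.1.1 * γ.1) 0 1 = _
    simp [Matrix.mul_apply, Fin.sum_univ_two]
  have hw : (w : ℂ) * ((γ.1 1 0 : ℤ) * τ + (γ.1 1 1 : ℤ)) = (γ.1 0 0 : ℤ) * τ + (γ.1 0 1 : ℤ) := by
    have h5 := dn_ne γ τ
    rw [hwd, coe_specialLinearGroup_apply]
    have h6 : ((γ.1 1 0 : ℤ) : ℂ) * τ + (γ.1 1 1 : ℤ) ≠ 0 := h5
    simp only [algebraMap_int_eq, eq_intCast]
    exact div_mul_cancel₀ _ h6
  obtain ⟨hne, hk2⟩ := key2 hN (rmul k.1 γ) τ (hf hN k w) (by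
    rw [e10, e11, e00, e01]
    push_cast
    linear_combination ((γ.1 1 0 : ℤ) * (τ : ℂ) + (γ.1 1 1 : ℤ)) * h1 + ((k.1.1 0 0 : ℤ) : ℂ) * hw)
  rw [th_es, th_es]
  have had := ad_eq hN k
  have hd := d_ne hN k
  have hden : ((rmul k.1 γ).1 1 0 : ℤ) * (τ : ℂ) + ((rmul k.1 γ).1 1 1 : ℤ) = (k.1.1 1 1 : ℤ) * dn γ τ := by
    rw [e10, e11, dn]
    push_cast
    ring
  rw [hden] at hk2
  have hdn := dn_ne γ τ
  have h7 : ((k.1.1 0 0 : ℤ) : ℂ) ^ 2 * es (hf hN k w) =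
      (((red hN (rmul k.1 γ)).1.1 0 0 : ℤ) : ℂ) ^ 2 * es (hf hN (red hN (rmul k.1 γ)) τ) * dn γ τ ^ 2 := by
    apply mul_right_cancel₀ (pow_ne_zero 2 hd)
    calc ((k.1.1 0 0 : ℤ) : ℂ) ^ 2 * es (hf hN k w) * ((k.1.1 1 1 : ℤ) : ℂ) ^ 2
        = (((k.1.1 0 0 : ℤ) : ℂ) * (k.1.1 1 1 : ℤ)) ^ 2 * es (hf hN k w) := by ring
      _ = (N : ℂ) ^ 2 * es (hf hN k w) := by rw [had]
      _ = _ := by rw [hk2]; ring
  have h8 := wt_smul γ τ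
  rw [h7, hwd, es_smul, ← h8]
  ring

/-- the value at a fixed point -/
theorem th_fix (hN : 0 < N) {p q r s : ℤ} (hdet : p * s - q * r = N) {τ : ℍ}
    (hτ : (τ : ℂ) * (r * τ + s) = p * τ + q) : (r * (τ : ℂ) + s) ≠ 0 ∧
    ∃ k : reps (N : ℤ), th hN k τ * (r * (τ : ℂ) + s) ^ 2 = N * (N - (r * (τ : ℂ) + s) ^ 2) * (es τ * wt τ) := by
  set A : FixedDetMatrix (Fin 2) ℤ (N : ℤ) :=
    ⟨!![p, q; r, s], by rw [Matrix.det_fin_two_of]; exact hdet⟩ with hA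
  obtain ⟨h1, h2⟩ := key2 hN A τ τ (by simpa [hA] using hτ)
  have e1 : ((A.1 1 0 : ℤ) : ℂ) * (τ : ℂ) + (A.1 1 1 : ℤ) = r * τ + s := by simp [hA]
  rw [e1] at h1 h2
  refine ⟨h1, red hN A, ?_⟩
  rw [th_es]
  linear_combination (-(wt τ)) * h2

end Pool.Agent.H73.ML
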