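import Pool.Agent.H73.G.R8.H610R3.ZPTE
import Pool.Agent.H73.G.R8.R870.NY.Mod
import Pool.Agent.H73.ML.Th

/-!
# The expansions of the functions `θ_k`
-/

set_option autoImplicit false

open UpperHalfPlane ModularForm EisensteinSeries MatrixGroups FixedDetMatrices Matrix
open H294ZP H294ZP.TF676 H294ZP.TA2
open scoped ArithmeticFunction.sigma

noncomputable section

namespace Pool.Agent.H73.ML

/-- the coefficients of `E₂` -/
def c2 (n : ℕ) : ℤ := if n = 0 then 1 else -24 * (σ 1 n : ℤ)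

/-- the coefficients of `q E₄ E₆ / Δ` -/
def cw (n : ℕ) : ℤ := ((1 + 240 * A) * (1 - 504 * B) * V).coeff n

theorem c2_sum (τ : ℍ) : HasSum (fun n => (c2 n : ℂ) * qq 1 τ ^ n) (E2 τ) := by
  have h := hasSum_qExpansion_E2 τ
  convert h using 2 with n
  rw [smul_eq_mul, c2]
  congr 1
  · split_ifs <;> push_cast <;> rfl
  · unfold qq
    simp

theorem cw_sum (τ : ℍ) : HasSum (fun n => (cw n : ℂ) * qq 1 τ ^ n) (qq 1 τ * wt τ) := by
  have h := R_mul (R_mul R_E4 R_E6) R_V τ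
  rw [E4_eq, E6_eq, ← map_mul, ← map_mul] at h
  have h3 : E₄ τ * E₆ τ * (qq 1 τ / discriminant τ) = qq 1 τ * wt τ := by
    unfold wt
    ring
  beta_reduce at h
  rw [h3] at h
  exact h

theorem int_int (z : ℤ) : IsIntegral ℤ (z : ℂ) := isIntegral_algebraMap (R := ℤ) (x := z)

theorem lau_E2 : Lau 1 0 1 E2 := by
  refine ⟨fun n => (c2 n : ℂ), by simp [c2], fun n => int_int _, fun τ => ?_⟩
  rw [pow_zero, one_mul]
  exact c2_sum τ

theorem cw_zero : cw 0 = 1 := by
  have hA : PowerSeries.constantCoeff A = 0 := by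
    rw [← PowerSeries.coeff_zero_eq_constantCoeff_apply, A0]
  have hB : PowerSeries.constantCoeff B = 0 := by
    rw [← PowerSeries.coeff_zero_eq_constantCoeff_apply, B0]
  have hV : PowerSeries.constantCoeff V = 1 := by
    have := congrArg PowerSeries.constantCoeff UV
    rw [map_mul, U0, one_mul, map_one] at this
    exact this
  rw [cw, PowerSeries.coeff_zero_eq_constantCoeff_apply]
  simp [hA, hB, hV]

theorem lau_wt : Lau 1 1 1 wt := by
  refine ⟨fun n => (cw n : ℂ), by simp [cw_zero], fun n => int_int _, fun τ => ?_⟩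
  rw [pow_one]
  exact cw_sum τ

theorem hol_wt : Hol wt := by
  have h4 := UpperHalfPlane.mdifferentiable_iff.mp (E₄).holo'
  have h6 := UpperHalfPlane.mdifferentiable_iff.mp (E₆).holo'
  have h12 := UpperHalfPlane.mdifferentiable_iff.mp (CuspForm.discriminant).holo'
  unfold Hol
  have : (wt ∘ ofComplex) = fun z => (((E₄ : ℍ → ℂ) ∘ ofComplex) z * ((E₆ : ℍ → ℂ) ∘ ofComplex) z) /
      (discriminant ∘ ofComplex) z := by
    ext z; rfl
  rw [this]
  exact (h4.mul h6).div h12 (fun z _ => discriminant_ne_zero _)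

theorem hol_E2 : Hol E2 := UpperHalfPlane.mdifferentiable_iff.mp E2_mdifferentiable

/-- composition with `(a τ + b) / d` -/
theorem lau_comp {f : ℍ → ℂ} {A : ℂ} (hJ : Lau 1 0 A f) (a d : ℕ) (b : ℤ) (ha : 0 < a) (hd : 0 < d) (h : ℍ → ℍ)
    (hh : ∀ τ, (h τ : ℂ) * d = a * τ + b) : Lau (a * d) 0 A (fun τ => f (h τ)) := by
  obtain ⟨c, hc0, hcI, hc⟩ := hJ
  have hd0 : (d : ℂ) ≠ 0 := by exact_mod_cast hd.ne'
  have ha0 : (a : ℂ) ≠ 0 := by exact_mod_cast ha.ne'
  set ζ : ℂ := Complex.exp (2 * Real.pi * Complex.I * b / d) with hζ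
  have hζ0 : ζ ≠ 0 := Complex.exp_ne_zero _
  have hζd : ζ ^ d = 1 := by
    rw [hζ, ← Complex.exp_nat_mul]
    rw [Complex.exp_eq_one_iff]
    refine ⟨b, ?_⟩
    field_simp
  have hζI : IsIntegral ℤ ζ := IsIntegral.of_pow hd (by rw [hζd]; exact isIntegral_one)
  have ha2 : 0 < a ^ 2 := by positivity
  refine ⟨fun n => if a ^ 2 ∣ n then (c (n / a ^ 2) * ζ ^ (n / a ^ 2)) else 0, ?_, ?_, ?_⟩
  · simp [hc0]
  · intro n
    dsimp only
    split_ifs
    · exact (hcI _).mul (hζI.pow _)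
    · exact isIntegral_zero
  · intro τ
    have hq : qq 1 (h τ) = qq (a * d) τ ^ (a ^ 2) * ζ := by
      unfold qq
      rw [← Complex.exp_nat_mul, hζ, ← Complex.exp_add]
      congr 1
      have : (h τ : ℂ) = (a * τ + b) / d := by
        rw [eq_div_iff hd0]; exact hh τ
      rw [this]
      push_cast
      field_simp
    have h1 := hc (h τ)
    rw [hq] at h1
    have hinj : Function.Injective (fun n : ℕ => a ^ 2 * n) := by
      intro x y hxy
      exact Nat.eq_of_mul_eq_mul_left ha2 hxy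
    have h2 := (hinj.hasSum_iff
      (f := fun n : ℕ => (if a ^ 2 ∣ n then (c (n / a ^ 2) * ζ ^ (n / a ^ 2)) else 0) *
        qq (a * d) τ ^ n)
      (a := qq (a * d) τ ^ 0 * f (h τ)) (by
        intro n hn
        have : ¬ a ^ 2 ∣ n := by
          rintro ⟨k, rfl⟩
          exact hn ⟨k, rfl⟩
        simp [this]))
    rw [← h2]
    refine TCx.hs_congr h1 (fun n => ?_) (by rw [pow_zero, pow_zero])
    simp only [Function.comp]
    rw [if_pos (dvd_mul_right _ _), Nat.mul_div_cancel_left _ ha2, pow_mul, mul_pow]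
    ring

theorem hol_comp {f : ℍ → ℂ} (hJ : Hol f) (a d : ℕ) (b : ℤ) (ha : 0 < a) (hd : 0 < d) (h : ℍ → ℍ)
    (hh : ∀ τ, (h τ : ℂ) * d = a * τ + b) : Hol (fun τ => f (h τ)) := by
  have hd0 : (d : ℂ) ≠ 0 := by exact_mod_cast hd.ne'
  unfold Hol at hJ ⊢
  have him : ∀ z : ℂ, 0 < z.im → 0 < (((a : ℂ) * z + b) / d).im := by
    intro z hz
    have : (((a : ℂ) * z + b) / d).im = a * z.im / d := by
      have e : ((a : ℂ) * z + b) / d = ((a * z.re + b) / d : ℝ) + ((a * z.im / d : ℝ) : ℂ) *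
          Complex.I := by
        conv_lhs => rw [← Complex.re_add_im z]
        push_cast
        field_simp
        ring
      rw [e]
      simp
    rw [this]
    have : (0 : ℝ) < a := by exact_mod_cast ha
    have : (0 : ℝ) < d := by exact_mod_cast hd
    positivity
  have h1 : DifferentiableOn ℂ (fun z : ℂ => ((a : ℂ) * z + b) / d) {z | 0 < z.im} := by
    fun_prop
  have h2 := hJ.comp h1 (fun z hz => him z hz)
  refine h2.congr ?_
  intro z hz
  have hz' : 0 < z.im := hz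
  simp only [Function.comp]
  rw [ofComplex_apply_of_im_pos hz', ofComplex_apply_of_im_pos (him z hz')]
  congr 1
  apply UpperHalfPlane.ext
  show (h ⟨z, hz'⟩ : ℂ) = ((a : ℂ) * z + b) / d
  rw [eq_div_iff hd0]
  exact hh _

variable {N : ℕ}

open Pool.Agent.R870.NY in
/-- the expansion of `θ_k` -/
theorem lb_th (hN : 0 < N) (k : reps (N : ℤ)) : LB N N (th hN k) := by
  obtain ⟨ha, hd, had, ea, ed, -⟩ := reps_pos hN k
  have hh : ∀ τ, (hf hN k τ : ℂ) * ((k.1.1 1 1).toNat : ℕ) = ((k.1.1 0 0).toNat : ℕ) * τ + (k.1.1 0 1 : ℤ) :=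
    fun τ => hk_mul _ _ _ ha hd τ
  have l1 := lau_comp lau_E2 _ _ _ ha hd (hf hN k) hh
  have o1 := hol_comp hol_E2 _ _ _ ha hd (hf hN k) hh
  rw [had] at l1
  have l2 := H294ZP.H610.lau_reindex hN lau_E2
  rw [mul_zero] at l2
  have l3 := H294ZP.H610.lau_reindex hN lau_wt
  rw [mul_one] at l3
  have b1 : LB N 0 (fun τ => E2 (hf hN k τ)) := ⟨⟨_, l1⟩, o1⟩
  have b2 : LB N 0 E2 := ⟨⟨_, l2⟩, hol_E2⟩
  have b3 : LB N N wt := ⟨⟨_, l3⟩, hol_wt⟩
  have b4 := LB.mul hN (LB.const hN (A := ((k.1.1 0 0 : ℤ) : ℂ) ^ 2) ((int_int _).pow 2)) b1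
  have b5 := LB.neg hN (LB.mul hN (LB.const hN (A := ((N : ℤ) : ℂ)) (int_int _)) b2)
  have b6 := LB.mul hN (LB.add hN b4 b5) b3
  rw [zero_add, zero_add] at b6
  convert b6 using 2 with τ
  rw [th]
  push_cast
  ring

end Pool.Agent.H73.ML
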