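import Pool.Agent.H73.G.RA.NH23.CMc
import Pool.Agent.H73.ML.Ser

/-!
# Field automorphisms and the polynomials with the roots `θ_k`
-/

set_option autoImplicit false

open UpperHalfPlane ModularForm EisensteinSeries
open H294ZP H294ZP.TF676 H294ZP.TA2
open Pool.Agent.NH23.CM (sc sc_coe qq_hk zt PS map_PS R_PS R_C R_Xpow R_congr R_sum)
open Pool.Agent.Y226.ZW (R_add R_uniq)

noncomputable section

namespace Pool.Agent.H73.ML

/-- the series `∑ c_n (ζ T ^ e) ^ n` -/
def IS (c : ℕ → ℤ) (ζ : ℂ) (e : ℕ) : PowerSeries ℂ :=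
  PowerSeries.mk fun m => if e ∣ m then (c (m / e) : ℂ) * ζ ^ (m / e) else 0

theorem map_IS (c : ℕ → ℤ) (σ : ℂ →+* ℂ) (ζ : ℂ) (e : ℕ) : PowerSeries.map σ (IS c ζ e) = IS c (σ ζ) e := by
  ext n
  simp only [IS, PowerSeries.coeff_map, PowerSeries.coeff_mk]
  split_ifs
  · rw [map_mul, map_intCast, map_pow]
  · exact map_zero σ

theorem R_IS {c : ℕ → ℤ} {f : ℍ → ℂ} (hc : ∀ τ, HasSum (fun n => (c n : ℂ) * qq 1 τ ^ n) (f τ)) {ζ : ℂ} {e : ℕ}
    (he : 0 < e) {h : ℍ → ℍ} (hh : ∀ u, qq 1 (h u) = ζ * qq 1 u ^ e) :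
    R (IS c ζ e) (fun u => f (h u)) := by
  intro u
  have hinj : Function.Injective (fun n : ℕ => e * n) := by
    intro a b hab
    exact Nat.eq_of_mul_eq_mul_left he hab
  refine (hinj.hasSum_iff (f := fun n => (IS c ζ e).coeff n * qq 1 u ^ n) ?_).1 ?_
  · intro x hx
    have : ¬ e ∣ x := by
      rintro ⟨y, rfl⟩
      exact hx ⟨y, rfl⟩
    simp [IS, this]
  · have h1 := hc (h u)
    rw [hh u] at h1
    convert h1 using 1
    funext n
    simp only [Function.comp_apply, IS, PowerSeries.coeff_mk, dvd_mul_right, if_true, Nat.mul_div_cancel_left n he,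
      pow_mul, mul_pow]
    ring

variable {N : ℕ}

/-- the function `θ` for `(a w + b) / d` -/
def thb (N : ℕ) {a d : ℕ} (b : ℤ) (ha : 0 < a) (hd : 0 < d) (w : ℍ) : ℂ :=
  ((a : ℂ) ^ 2 * E2 (hk a d b ha hd w) - N * E2 w) * wt w

/-- the series of `θ` -/
def TS (N a : ℕ) (ζ : ℂ) : PowerSeries ℂ :=
  (PowerSeries.C ((a : ℂ) ^ 2) * IS c2 ζ (a ^ 2) - PowerSeries.C (N : ℂ) * IS c2 1 N) * IS cw 1 N

theorem map_TS (σ : ℂ →+* ℂ) (N a : ℕ) (ζ : ℂ) : PowerSeries.map σ (TS N a ζ) = TS N a (σ ζ) := by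
  rw [TS, TS, map_mul, map_sub, map_mul, map_mul, map_IS, map_IS, map_IS, map_one, PowerSeries.map_C,
    PowerSeries.map_C, map_pow, map_natCast, map_natCast]

theorem R_TS (hN : 0 < N) {a d : ℕ} (ha : 0 < a) (hd : 0 < d) (h : a * d = N) (b : ℤ) :
    R (TS N a (zt d b)) (fun u => qq 1 u ^ N * thb N b ha hd (sc N hN u)) := by
  have e1 : ∀ u, qq 1 (sc N hN u) = 1 * qq 1 u ^ N := by
    intro u
    unfold qq
    rw [sc_coe, ← Complex.exp_nat_mul, one_mul]
    congr 1
    push_cast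
    ring
  have r1 := R_IS c2_sum (pow_pos ha 2) (qq_hk hN ha hd h b)
  have r2 := R_IS c2_sum hN e1
  have r3 := R_IS cw_sum hN e1
  have r4 := R_mul (R_sub (R_mul (R_C ((a : ℂ) ^ 2)) r1) (R_mul (R_C (N : ℂ)) r2)) r3
  refine R_congr r4 fun u => ?_
  rw [e1, thb]
  ring

open Polynomial in
/-- a polynomial over the power series and a family of polynomials -/
def RP (P : Polynomial (PowerSeries ℂ)) (Q : ℍ → Polynomial ℂ) : Prop :=
  ∀ r, R (P.coeff r) (fun u => (Q u).coeff r)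

theorem RP_mul {P P' : Polynomial (PowerSeries ℂ)} {Q Q' : ℍ → Polynomial ℂ} (h : RP P Q) (h' : RP P' Q') :
    RP (P * P') (fun u => Q u * Q' u) := by
  intro r
  rw [Polynomial.coeff_mul]
  refine R_congr (R_sum _ fun x _ => R_mul (h x.1) (h' x.2)) fun u => ?_
  rw [Polynomial.coeff_mul]

theorem R_zero : R 0 (fun _ => 0) := by
  have := R_C 0
  rwa [map_zero] at this

theorem R_one : R 1 (fun _ => 1) := by
  have := R_C 1
  rwa [map_one] at this

theorem RP_one : RP 1 (fun _ => 1) := by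
  intro r
  by_cases hr : r = 0
  · subst hr
    simpa using R_one
  · rw [Polynomial.coeff_one, if_neg hr]
    refine R_congr R_zero fun u => ?_
    rw [Polynomial.coeff_one, if_neg hr]

theorem RP_lin {S S' : PowerSeries ℂ} {f f' : ℍ → ℂ} (h : R S f) (h' : R S' f') :
    RP (Polynomial.C S * Polynomial.X - Polynomial.C S') (fun u => Polynomial.C (f u) * Polynomial.X - Polynomial.C (f' u)) := by
  intro r
  rw [Polynomial.coeff_sub]
  have h1 : R ((Polynomial.C S * Polynomial.X : Polynomial (PowerSeries ℂ)).coeff r)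
      (fun u => (Polynomial.C (f u) * Polynomial.X : Polynomial ℂ).coeff r) := by
    rw [Polynomial.coeff_C_mul_X]
    by_cases hr : r = 1
    · rw [if_pos hr]
      refine R_congr h fun u => ?_
      rw [Polynomial.coeff_C_mul_X, if_pos hr]
    · rw [if_neg hr]
      refine R_congr R_zero fun u => ?_
      rw [Polynomial.coeff_C_mul_X, if_neg hr]
  have h2 : R ((Polynomial.C S' : Polynomial (PowerSeries ℂ)).coeff r)
      (fun u => (Polynomial.C (f' u) : Polynomial ℂ).coeff r) := by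
    rw [Polynomial.coeff_C]
    by_cases hr : r = 0
    · rw [if_pos hr]
      refine R_congr h' fun u => ?_
      rw [Polynomial.coeff_C, if_pos hr]
    · rw [if_neg hr]
      refine R_congr R_zero fun u => ?_
      rw [Polynomial.coeff_C, if_neg hr]
  refine R_congr (R_sub h1 h2) fun u => ?_
  rw [Polynomial.coeff_sub]

theorem RP_prod {ι : Type} (s : Finset ι) {P : ι → Polynomial (PowerSeries ℂ)} {Q : ι → ℍ → Polynomial ℂ}
    (h : ∀ i ∈ s, RP (P i) (Q i)) : RP (∏ i ∈ s, P i) (fun u => ∏ i ∈ s, Q i u) := by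
  classical
  induction s using Finset.induction_on with
  | empty => simpa using RP_one
  | insert i s hi ih =>
    rw [Finset.prod_insert hi]
    intro r
    refine R_congr (RP_mul (h i (Finset.mem_insert_self i s)) (ih fun k hk => h k (Finset.mem_insert_of_mem hk)) r)
      fun u => ?_
    beta_reduce
    rw [Finset.prod_insert hi]

variable {ι : Type} [Fintype ι] {a d : ι → ℕ} {b : ι → ℤ}

/-- the coefficients of the polynomial with the roots `θ_k` -/
def cf (N : ℕ) (a d : ι → ℕ) (ha : ∀ k, 0 < a k) (hd : ∀ k, 0 < d k) (b : ι → ℤ) (r : ℕ) (w : ℍ) : ℂ :=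
  (∏ k, (Polynomial.X - Polynomial.C (thb N (b k) (ha k) (hd k) w))).coeff r

/-- the series -/
def CS (N : ℕ) (a d : ι → ℕ) (b : ι → ℤ) (r : ℕ) : PowerSeries ℂ :=
  (∏ k, (Polynomial.C (PowerSeries.X ^ N) * Polynomial.X - Polynomial.C (TS N (a k) (zt (d k) (b k))))).coeff r

theorem R_CS (hN : 0 < N) (ha : ∀ k, 0 < a k) (hd : ∀ k, 0 < d k) (h : ∀ k, a k * d k = N) (r : ℕ) :
    R (CS N a d b r) (fun u => qq 1 u ^ (N * Fintype.card ι) * cf N a d ha hd b r (sc N hN u)) := by
  have h1 := RP_prod Finset.univ (fun k _ => RP_lin (R_Xpow N) (R_TS hN (ha k) (hd k) (h k) (b k))) r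
  refine R_congr h1 fun u => ?_
  have h2 : ∏ k, (Polynomial.C (qq 1 u ^ N) * Polynomial.X -
      Polynomial.C (qq 1 u ^ N * thb N (b k) (ha k) (hd k) (sc N hN u))) =
      Polynomial.C (qq 1 u ^ (N * Fintype.card ι)) *
        ∏ k, (Polynomial.X - Polynomial.C (thb N (b k) (ha k) (hd k) (sc N hN u))) := by
    have h3 : ∀ k, (Polynomial.C (qq 1 u ^ N) * Polynomial.X -
      Polynomial.C (qq 1 u ^ N * thb N (b k) (ha k) (hd k) (sc N hN u))) = Polynomial.C (qq 1 u ^ N) *
        (Polynomial.X - Polynomial.C (thb N (b k) (ha k) (hd k) (sc N hN u))) := by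
      intro k
      rw [map_mul]
      ring
    rw [Finset.prod_congr rfl fun k _ => h3 k, Finset.prod_mul_distrib, Finset.prod_const, Finset.card_univ,
      ← map_pow, ← pow_mul]
  beta_reduce
  rw [h2, Polynomial.coeff_C_mul]
  rfl

theorem map_CS {σ : ℂ →+* ℂ} {s : ℤ} (hσ : ∀ k, σ (zt (d k) (b k)) = zt (d k) (s * b k)) (r : ℕ) :
    PowerSeries.map σ (CS N a d b r) = CS N a d (fun k => s * b k) r := by
  rw [CS, CS, ← Polynomial.coeff_map, Polynomial.map_prod]
  congr 1
  refine Finset.prod_congr rfl fun k _ => ?_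
  rw [Polynomial.map_sub, Polynomial.map_mul, Polynomial.map_C, Polynomial.map_C, Polynomial.map_X, map_TS, hσ,
    map_pow, PowerSeries.map_X]

/-- **conjugation** -/
theorem conj_cf (hN : 0 < N) (ha : ∀ k, 0 < a k) (hd : ∀ k, 0 < d k) (h : ∀ k, a k * d k = N)
    {P : Polynomial ℂ} {r : ℕ} (hP : ∀ w : ℍ, cf N a d ha hd b r w = P.eval (jj w))
    {σ : ℂ →+* ℂ} {s : ℤ} (hσ : ∀ k, σ (zt (d k) (b k)) = zt (d k) (s * b k)) (w : ℍ) :
    cf N a d ha hd (fun k => s * b k) r w = (P.map σ).eval (jj w) := by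
  classical
  set D := P.natDegree with hD
  have key : ∀ (b' : ι → ℤ) (Q : Polynomial ℂ) (hQ : Q.natDegree ≤ D),
      (PowerSeries.X ^ (N * D) * CS N a d b' r =
        PowerSeries.X ^ (N * Fintype.card ι) * PS N D Q ↔
      ∀ u : ℍ, cf N a d ha hd b' r (sc N hN u) = Q.eval (jj (sc N hN u))) := by
    intro b' Q hQ
    have r1 := R_mul (R_Xpow (N * D)) (R_CS (b := b') hN ha hd h r)
    have r2 := R_mul (R_Xpow (N * Fintype.card ι)) (R_PS hN hQ)
    constructor
    · intro he u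
      have h1 := r1 u
      rw [he] at h1
      have h2 := h1.unique (r2 u)
      beta_reduce at h2
      have n1 : qq 1 u ^ (N * D) * qq 1 u ^ (N * Fintype.card ι) ≠ 0 :=
        mul_ne_zero (pow_ne_zero _ (qq_ne u)) (pow_ne_zero _ (qq_ne u))
      apply mul_left_cancel₀ n1
      linear_combination h2
    · intro he
      refine R_uniq r1 (R_congr r2 fun u => ?_)
      rw [← he u]
      ring
  have h1 := (key b P le_rfl).2 fun u => hP _
  have h2 := congrArg (PowerSeries.map σ) h1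
  rw [map_mul, map_mul, map_pow, map_pow, PowerSeries.map_X, map_PS, map_CS hσ] at h2
  have h3 := (key (fun k => s * b k) (P.map σ) (Polynomial.natDegree_map_le.trans le_rfl)).1 h2
    (hk 1 N 0 one_pos hN w)
  have h4 : sc N hN (hk 1 N 0 one_pos hN w) = w := by
    apply UpperHalfPlane.ext
    rw [sc_coe, mul_comm, hk_mul]
    simp
  rw [h4] at h3
  exact h3

end Pool.Agent.H73.ML
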