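import Mathlib

/-!
# Bounds for polynomials
-/

set_option autoImplicit false

open Polynomial

noncomputable section

namespace Pool.Agent.H73.ML

theorem coeff_le {Q : ℂ[X]} {R C : ℝ} (hR : 0 < R) (h : ∀ x : ℂ, ‖x‖ = R → ‖Q.eval x‖ ≤ C) (i : ℕ) :
    ‖Q.coeff i‖ * R ^ i ≤ C := by
  have h1 := Complex.norm_iteratedDeriv_le_of_forall_mem_sphere_norm_le i hR
    (f := fun x => Q.eval x) (c := 0) (C := C) (Q.differentiable.diffContOnCl) (fun z hz => h z (by simpa using hz))
  have h2 : iteratedDeriv i (fun x : ℂ => Q.eval x) 0 = (i.factorial : ℂ) * Q.coeff i := by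
    have h3 : ∀ (n : ℕ) (P : Polynomial ℂ), iteratedDeriv n (fun x : ℂ => P.eval x) =
        fun x => ((Polynomial.derivative^[n]) P).eval x := by
      intro n
      induction n with
      | zero => intro P; rfl
      | succ n ih =>
        intro P
        rw [iteratedDeriv_succ']
        have h4 : deriv (fun x : ℂ => P.eval x) = fun x => P.derivative.eval x := by
          funext x
          exact P.deriv
        rw [h4, ih]
        rfl
    rw [h3]
    beta_reduce
    rw [← Polynomial.coeff_zero_eq_eval_zero, Polynomial.coeff_iterate_derivative, zero_add,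
      Nat.descFactorial_self, nsmul_eq_mul]
  rw [h2, norm_mul, Complex.norm_natCast, le_div_iff₀ (pow_pos hR _)] at h1
  have h5 : (0 : ℝ) < (i.factorial : ℝ) := by exact_mod_cast Nat.factorial_pos _
  rw [mul_assoc] at h1
  exact le_of_mul_le_mul_left h1 h5

theorem eval_le {Q : ℂ[X]} {R C G : ℝ} {D : ℕ} (hR : 1 ≤ R) (h : ∀ x : ℂ, ‖x‖ = R → ‖Q.eval x‖ ≤ C)
    (hD : Q.natDegree ≤ D) (hG : 1 ≤ G) {x : ℂ} (hx : ‖x‖ ≤ G) : ‖Q.eval x‖ ≤ (D + 1) * C * G ^ D := by
  have hC : 0 ≤ C := (norm_nonneg _).trans (h (R : ℂ) (by rw [Complex.norm_real, Real.norm_of_nonneg (by linarith)]))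
  rw [Polynomial.eval_eq_sum_range' (Nat.lt_succ_of_le hD)]
  refine (norm_sum_le _ _).trans ?_
  have h1 : ∀ i ∈ Finset.range (D + 1), ‖Q.coeff i * x ^ i‖ ≤ C * G ^ D := by
    intro i hi
    have hi' : i ≤ D := Nat.lt_succ_iff.1 (Finset.mem_range.1 hi)
    rw [norm_mul, norm_pow]
    have h2 := coeff_le (by linarith) h i
    have h3 : ‖Q.coeff i‖ ≤ C := by
      have : 1 ≤ R ^ i := one_le_pow₀ hR
      have h4 := norm_nonneg (Q.coeff i)
      nlinarith
    calc ‖Q.coeff i‖ * ‖x‖ ^ i ≤ C * G ^ i := by gcongr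
      _ ≤ C * G ^ D := by gcongr
  refine (Finset.sum_le_sum h1).trans (le_of_eq ?_)
  rw [Finset.sum_const, Finset.card_range, nsmul_eq_mul]
  push_cast
  ring

theorem prod_coeff_le {ι : Type} (s : Finset ι) (z : ι → ℂ) (r : ℕ) :
    ‖(∏ k ∈ s, (X - C (z k))).coeff r‖ ≤ ∏ k ∈ s, (1 + ‖z k‖) := by
  classical
  induction s using Finset.induction_on generalizing r with
  | empty =>
    rw [Finset.prod_empty, Finset.prod_empty, Polynomial.coeff_one]
    split_ifs <;> simp
  | insert k s hk ih =>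
    rw [Finset.prod_insert hk, Finset.prod_insert hk, sub_mul, coeff_sub, coeff_C_mul]
    have h0 : 0 ≤ ∏ k ∈ s, (1 + ‖z k‖) := Finset.prod_nonneg fun k _ => by positivity
    have h1 : ‖(X * ∏ k ∈ s, (X - C (z k))).coeff r‖ ≤ ∏ k ∈ s, (1 + ‖z k‖) := by
      cases r with
      | zero => simpa using h0
      | succ r => rw [coeff_X_mul]; exact ih r
    have h2 : ‖z k * (∏ k ∈ s, (X - C (z k))).coeff r‖ ≤ ‖z k‖ * ∏ k ∈ s, (1 + ‖z k‖) := by
      rw [norm_mul]
      exact mul_le_mul_of_nonneg_left (ih r) (norm_nonneg _)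
    refine (norm_sub_le _ _).trans ((add_le_add h1 h2).trans (le_of_eq (by ring)))

/-- a root of a monic polynomial -/
theorem root_bd {F : ℂ[X]} (hF : F.Monic) {M : ℝ} (hM : 0 ≤ M) (h : ∀ r, r < F.natDegree → ‖F.coeff r‖ ≤ M) {x : ℂ}
    (hx : F.eval x = 0) : ‖x‖ ≤ 1 + F.natDegree * M := by
  by_cases h1 : ‖x‖ ≤ 1
  · have : 0 ≤ F.natDegree * M := by positivity
    linarith
  push Not at h1
  have hn : F.natDegree ≠ 0 := by
    intro h0
    have h2 : F = 1 := Polynomial.eq_one_of_monic_natDegree_zero hF h0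
    rw [h2, eval_one] at hx
    exact one_ne_zero hx
  obtain ⟨n, hn'⟩ := Nat.exists_eq_succ_of_ne_zero hn
  have hc : F.coeff (n + 1) = 1 := by
    have h2 := hF.coeff_natDegree
    rw [hn'] at h2
    exact h2
  rw [Polynomial.eval_eq_sum_range, hn', Finset.sum_range_succ, hc, one_mul] at hx
  have h2 : x ^ (n + 1) = -∑ i ∈ Finset.range (n + 1), F.coeff i * x ^ i := by
    linear_combination hx
  have h3 : ‖x‖ ^ (n + 1) ≤ (n + 1) * M * ‖x‖ ^ n := by
    calc ‖x‖ ^ (n + 1) = ‖x ^ (n + 1)‖ := by rw [norm_pow]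
      _ ≤ ∑ i ∈ Finset.range (n + 1), ‖F.coeff i * x ^ i‖ := by
        rw [h2, norm_neg]
        exact norm_sum_le _ _
      _ ≤ ∑ i ∈ Finset.range (n + 1), M * ‖x‖ ^ n := by
        refine Finset.sum_le_sum fun i hi => ?_
        have hi' := Finset.mem_range.1 hi
        rw [norm_mul, norm_pow]
        have := h i (by omega)
        gcongr
        · exact h1.le
        · omega
      _ = _ := by
        rw [Finset.sum_const, Finset.card_range, nsmul_eq_mul]
        push_cast
        ring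
  have h4 : 0 < ‖x‖ ^ n := by positivity
  rw [pow_succ, mul_comm (‖x‖ ^ n)] at h3
  have h5 := le_of_mul_le_mul_right h3 h4
  rw [hn']
  push_cast
  linarith

end Pool.Agent.H73.ML
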