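import Pool.Agent.H73.ML.Cm

/-!
# Bounds for `(E₂ - 3 / (π y)) E₄ E₆ / Δ` at CM points
-/

set_option autoImplicit false

open UpperHalfPlane ModularForm EisensteinSeries Polynomial
open H294ZP H294ZP.TF676 H294ZP.TA2 FixedDetMatrices
open Pool.Agent.R870.NY (LB coeff_prod hTB card_reps)
open Pool.Agent.NH23.CM (jj_surj poly_unique exists_conj_aut exists_s zt cm_main deg_le)

noncomputable section

namespace Pool.Agent.H73.ML

/-- the root of a monic quadratic polynomial -/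
theorem quad_root_le {x : ℂ} {b N : ℝ} (hN : 0 ≤ N) (h : x ^ 2 - b * x + N = 0) : ‖x‖ ≤ 1 + |b| + N := by
  by_contra hc
  push Not at hc
  have h1 : x ^ 2 = b * x - N := by linear_combination h
  have h2 : ‖x‖ ^ 2 ≤ |b| * ‖x‖ + N := by
    rw [← norm_pow, h1]
    refine (norm_sub_le _ _).trans ?_
    rw [norm_mul, Complex.norm_real, Complex.norm_real, Real.norm_eq_abs, Real.norm_of_nonneg hN]
  have h3 := abs_nonneg b
  nlinarith

/-- everything at a CM point -/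
theorem cm_T : ∃ C : ℕ, ∀ H : ℕ, 2 ≤ H → ∀ (τ : ℍ) (a b c : ℤ), a ≠ 0 → |a| ≤ H → |b| ≤ H → |c| ≤ H →
    (a : ℂ) * (τ : ℂ) ^ 2 + b * τ + c = 0 → ∃ M : ℕ, 0 < M ∧ M ≤ H ^ C ∧
      IsIntegral ℤ ((M : ℂ) * (es τ * wt τ)) ∧ (minpoly ℚ ((M : ℂ) * (es τ * wt τ))).natDegree ≤ H ^ C ∧
      ∀ x : ℂ, aeval x (minpoly ℚ ((M : ℂ) * (es τ * wt τ))) = 0 → ‖x‖ ≤ Real.exp ((H : ℝ) ^ C) := by
  obtain ⟨C₀, hC₀⟩ := cm_main
  obtain ⟨C₁, hC₁, hth⟩ := conj_th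
  obtain ⟨k, hk⟩ := pow_unbounded_of_one_lt (C₁ + 20) (one_lt_two)
  refine ⟨2 * C₀ + 20 + k, fun H hH τ a b c ha hHa hHb hHc h => ?_⟩
  obtain ⟨hji, hjd, hjc⟩ := hC₀ H hH τ a b c ha hHa hHb hHc h
  have hK : 0 < 4 * a * c - b ^ 2 := H294ZP.H610.disc_pos τ a b c ha h
  have hac : 0 < a * c := by nlinarith [sq_nonneg b]
  obtain ⟨N, hN⟩ : ∃ N : ℕ, (N : ℤ) = a * c := ⟨(a * c).toNat, Int.toNat_of_nonneg hac.le⟩
  have hN0 : 0 < N := by
    have : (0 : ℤ) < N := by rw [hN]; exact hac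
    exact_mod_cast this
  obtain ⟨D', hD'⟩ : ∃ D' : ℕ, (D' : ℤ) = 4 * a * c - b ^ 2 := ⟨_, Int.toNat_of_nonneg hK.le⟩
  have hD'0 : 0 < D' := by
    have : (0 : ℤ) < D' := by rw [hD']; exact hK
    exact_mod_cast this
  have hτ : (τ : ℂ) * ((a : ℤ) * τ + (b : ℤ)) = (0 : ℤ) * τ + ((-c : ℤ) : ℂ) := by
    push_cast
    linear_combination h
  obtain ⟨hne, θ, hθ, hθi, hθd, hθc⟩ := hth N hN0 0 (-c) a b (by rw [hN]; ring) τ hτ hji (H ^ C₀)
    (Real.exp ((H : ℝ) ^ C₀)) (Real.one_le_exp (by positivity)) hjd hjc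
  set l : ℂ := (a : ℂ) * τ + b with hl
  have hNC : (N : ℂ) = a * c := by
    have : ((N : ℤ) : ℂ) = ((a * c : ℤ) : ℂ) := by rw [hN]
    push_cast at this
    exact this
  have hD'C : (D' : ℂ) = 4 * a * c - b ^ 2 := by
    have : ((D' : ℤ) : ℂ) = ((4 * a * c - b ^ 2 : ℤ) : ℂ) := by rw [hD']
    push_cast at this
    exact this
  have hl2 : l ^ 2 - b * l + N = 0 := by
    rw [hNC, hl]
    linear_combination (a : ℂ) * h
  have hNne : (N : ℂ) ≠ 0 := by exact_mod_cast hN0.ne'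
  -- the main identity
  have hMT : ((N * D' : ℕ) : ℂ) * (es τ * wt τ) = θ * l * (2 * l - b) := by
    have h1 : θ * l = N * (b - 2 * l) * (es τ * wt τ) := by
      apply mul_right_cancel₀ hne
      have h2 : θ * l * l = θ * l ^ 2 := by ring
      rw [h2, hθ]
      linear_combination ((N : ℂ) * (es τ * wt τ)) * hl2
    rw [h1]
    push_cast
    have h3 : (D' : ℂ) = 4 * N - b ^ 2 := by rw [hD'C, hNC]; ring
    rw [h3]
    linear_combination (4 * (N : ℂ) * (es τ * wt τ)) * hl2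
  have hli : IsIntegral ℤ l := by
    refine ⟨X ^ 2 - C b * X + C (N : ℤ), ?_, ?_⟩
    · monicity!
    · rw [Polynomial.eval₂_add, Polynomial.eval₂_sub, Polynomial.eval₂_mul, Polynomial.eval₂_pow,
        Polynomial.eval₂_X, Polynomial.eval₂_C, Polynomial.eval₂_C]
      simpa using hl2
  have hzi : ∀ z : ℤ, IsIntegral ℤ (z : ℂ) := fun z => by
    have := isIntegral_algebraMap (R := ℤ) (A := ℂ) (x := z)
    simpa using this
  have hi : IsIntegral ℤ (θ * l * (2 * l - b)) :=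
    (hθi.mul hli).mul (((hzi 2).mul hli).sub (hzi b))
  have hHr : (2 : ℝ) ≤ H := by exact_mod_cast hH
  have hH1 : (1 : ℝ) ≤ H := by linarith
  have hNH : N ≤ H ^ 2 := by
    have h1 : (N : ℤ) ≤ (H : ℤ) ^ 2 := by
      rw [hN]
      calc a * c ≤ |a * c| := le_abs_self _
        _ = |a| * |c| := abs_mul _ _
        _ ≤ H * H := mul_le_mul hHa hHc (abs_nonneg _) (by positivity)
        _ = (H : ℤ) ^ 2 := by ring
    exact_mod_cast h1
  have hDH : D' ≤ 4 * H ^ 2 := by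
    have h1 : (D' : ℤ) ≤ 4 * (H : ℤ) ^ 2 := by
      have h2 : (N : ℤ) ≤ (H : ℤ) ^ 2 := by exact_mod_cast hNH
      rw [hD']
      nlinarith [sq_nonneg b]
    exact_mod_cast h1
  have hH0 : 0 < H := by omega
  have hlz : ∀ z : ℂ, aeval z (minpoly ℚ l) = 0 → z ^ 2 - b * z + N = 0 := by
    intro z hz
    have h1 : minpoly ℚ l ∣ (X ^ 2 - C (b : ℚ) * X + C (N : ℚ)) := by
      apply minpoly.dvd
      simp only [map_add, map_sub, map_mul, map_pow, aeval_X, aeval_C, map_intCast, map_natCast]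
      exact hl2
    obtain ⟨R, hR⟩ := h1
    have h2 : aeval z (X ^ 2 - C (b : ℚ) * X + C (N : ℚ)) = 0 := by
      rw [hR, map_mul, hz, zero_mul]
    simpa only [map_add, map_sub, map_mul, map_pow, aeval_X, aeval_C, map_intCast, map_natCast] using h2
  have hld : (minpoly ℚ l).natDegree ≤ 2 := by
    have h0 : (X ^ 2 - C (b : ℚ) * X + C (N : ℚ)).Monic := by monicity!
    have h1 : minpoly ℚ l ∣ (X ^ 2 - C (b : ℚ) * X + C (N : ℚ)) := by
      apply minpoly.dvd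
      simp only [map_add, map_sub, map_mul, map_pow, aeval_X, aeval_C, map_intCast, map_natCast]
      exact hl2
    have h2 : (X ^ 2 - C (b : ℚ) * X + C (N : ℚ)).natDegree = 2 := by compute_degree!
    exact (Polynomial.natDegree_le_of_dvd h1 h0.ne_zero).trans h2.le
  refine ⟨N * D', Nat.mul_pos hN0 hD'0, ?_, ?_, ?_, ?_⟩
  · calc N * D' ≤ H ^ 2 * (4 * H ^ 2) := Nat.mul_le_mul hNH hDH
      _ ≤ H ^ 2 * (H ^ 2 * H ^ 2) := by
        have : 4 ≤ H ^ 2 := by nlinarith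
        gcongr
      _ = H ^ 6 := by ring
      _ ≤ H ^ (2 * C₀ + 20 + k) := Nat.pow_le_pow_right hH0 (by omega)
  · rw [hMT]
    exact hi
  · rw [hMT]
    have hd : ∀ j : Fin 2, (minpoly ℚ ((![θ, l] : Fin 2 → ℂ) j)).natDegree ≤ N ^ 3 * H ^ C₀ + 2 := by
      intro j
      fin_cases j
      · exact hθd.trans (Nat.le_add_right _ _)
      · exact hld.trans (Nat.le_add_left _ _)
    have h1 := deg_le (y := ![θ, l]) (D := N ^ 3 * H ^ C₀ + 2)
      (f := fun y => y 0 * y 1 * (2 * y 1 - b)) (by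
      intro j
      fin_cases j
      · exact (hθi.tower_top (A := ℚ)).isAlgebraic
      · exact (hli.tower_top (A := ℚ)).isAlgebraic) hd (by
      intro σ
      simp only [Matrix.cons_val_zero, Matrix.cons_val_one, map_mul, map_sub, map_ofNat, map_intCast]) (by
      exact (hi.tower_top (A := ℚ)).isAlgebraic)
    refine h1.trans ?_
    calc (N ^ 3 * H ^ C₀ + 2) ^ 2 ≤ ((H ^ 2) ^ 3 * H ^ C₀ + H) ^ 2 := by gcongr
      _ ≤ (H ^ (7 + C₀)) ^ 2 := by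
        refine Nat.pow_le_pow_left ?_ 2
        calc (H ^ 2) ^ 3 * H ^ C₀ + H ≤ (H ^ 2) ^ 3 * H ^ C₀ + (H ^ 2) ^ 3 * H ^ C₀ := by
              gcongr
              calc H = H ^ 1 * 1 := by ring
                _ ≤ (H ^ 2) ^ 3 * H ^ C₀ := by
                  rw [← pow_mul]
                  exact Nat.mul_le_mul (Nat.pow_le_pow_right hH0 (by norm_num)) (Nat.one_le_pow _ _ hH0)
          _ = 2 * (H ^ 6 * H ^ C₀) := by ring
          _ ≤ H * (H ^ 6 * H ^ C₀) := by gcongr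
          _ = H ^ (7 + C₀) := by ring
      _ = H ^ (2 * C₀ + 14) := by ring
      _ ≤ H ^ (2 * C₀ + 20 + k) := Nat.pow_le_pow_right hH0 (by omega)
  · intro x hx
    rw [hMT] at hx
    obtain ⟨σ, hσ⟩ := exists_conj_aut ((hi.tower_top (A := ℚ)).isAlgebraic) hx
    rw [← hσ]
    have e1 : σ (θ * l * (2 * l - b)) = σ θ * σ l * (2 * σ l - b) := by
      simp only [map_mul, map_sub, map_ofNat, map_intCast]
    rw [e1]
    have hs := quad_root_le (x := σ l) (b := (b : ℝ)) (N := (N : ℝ)) (Nat.cast_nonneg _) (by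
      have := hlz _ (conj_root (z := l) σ)
      push_cast
      exact this)
    have hNr : (N : ℝ) ≤ (H : ℝ) ^ 2 := by exact_mod_cast hNH
    have hbr : |(b : ℝ)| ≤ H := by exact_mod_cast hHb
    have hNr0 : (1 : ℝ) ≤ N := by exact_mod_cast hN0
    have f1 : ‖σ l‖ ≤ Real.exp (2 * (H : ℝ) ^ 2) := by
      refine hs.trans ?_
      have := Real.add_one_le_exp (2 * (H : ℝ) ^ 2)
      nlinarith
    have f2 : ‖2 * σ l - b‖ ≤ Real.exp (6 * (H : ℝ) ^ 2) := by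
      have g1 : ‖2 * σ l - b‖ ≤ 2 * ‖σ l‖ + |(b : ℝ)| := by
        refine (norm_sub_le _ _).trans ?_
        rw [norm_mul, Complex.norm_ofNat, Complex.norm_intCast]
      have := Real.add_one_le_exp (6 * (H : ℝ) ^ 2)
      nlinarith
    have f3 : ‖σ θ‖ ≤ Real.exp (2 * (H : ℝ) ^ 8 + C₁ * (H : ℝ) ^ 14 + (H : ℝ) ^ 4 * (H : ℝ) ^ C₀) := by
      refine (hθc σ).trans ?_
      have X1 : (1 + C₁ * (N : ℝ) ^ 5) ^ (N ^ 2) ≤ Real.exp (C₁ * (H : ℝ) ^ 14) := by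
        calc (1 + C₁ * (N : ℝ) ^ 5) ^ (N ^ 2) ≤ (Real.exp (C₁ * (N : ℝ) ^ 5)) ^ (N ^ 2) := by
              gcongr
              rw [add_comm]
              exact Real.add_one_le_exp _
          _ = Real.exp (C₁ * (N : ℝ) ^ 7) := by
              rw [← Real.exp_nat_mul]
              congr 1
              push_cast
              ring
          _ ≤ Real.exp (C₁ * ((H : ℝ) ^ 2) ^ 7) := by gcongr
          _ = Real.exp (C₁ * (H : ℝ) ^ 14) := by congr 1; ring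
      have X2 : (Real.exp ((H : ℝ) ^ C₀)) ^ (N ^ 2) ≤ Real.exp ((H : ℝ) ^ 4 * (H : ℝ) ^ C₀) := by
        rw [← Real.exp_nat_mul]
        push_cast
        have : (N : ℝ) ^ 2 ≤ (H : ℝ) ^ 4 := by
          calc (N : ℝ) ^ 2 ≤ ((H : ℝ) ^ 2) ^ 2 := by gcongr
            _ = (H : ℝ) ^ 4 := by ring
        gcongr
      have X0 : 1 + (N : ℝ) ^ 2 * ((N : ℝ) ^ 2 + 1) ≤ Real.exp (2 * (H : ℝ) ^ 8) := by
        have h1 := Real.add_one_le_exp (2 * (H : ℝ) ^ 8)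
        have h2 : (N : ℝ) ^ 2 ≤ (H : ℝ) ^ 4 := by
          calc (N : ℝ) ^ 2 ≤ ((H : ℝ) ^ 2) ^ 2 := by gcongr
            _ = (H : ℝ) ^ 4 := by ring
        have h3 : (1 : ℝ) ≤ (H : ℝ) ^ 4 := one_le_pow₀ hH1
        have h4 : (H : ℝ) ^ 8 = (H : ℝ) ^ 4 * (H : ℝ) ^ 4 := by ring
        have h5 : (0 : ℝ) ≤ (N : ℝ) ^ 2 := by positivity
        nlinarith
      have Y1 : (1 : ℝ) ≤ Real.exp (C₁ * (H : ℝ) ^ 14) := Real.one_le_exp (by positivity)
      have Y2 : (1 : ℝ) ≤ Real.exp ((H : ℝ) ^ 4 * (H : ℝ) ^ C₀) := Real.one_le_exp (by positivity)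
      have Y3 : (1 : ℝ) ≤ Real.exp (C₁ * (H : ℝ) ^ 14) * Real.exp ((H : ℝ) ^ 4 * (H : ℝ) ^ C₀) :=
        one_le_mul_of_one_le_of_one_le Y1 Y2
      rw [Real.exp_add, Real.exp_add]
      calc 1 + (N : ℝ) ^ 2 * (((N : ℝ) ^ 2 + 1) * (1 + C₁ * (N : ℝ) ^ 5) ^ (N ^ 2) *
            (Real.exp ((H : ℝ) ^ C₀)) ^ (N ^ 2))
          ≤ 1 + (N : ℝ) ^ 2 * (((N : ℝ) ^ 2 + 1) * Real.exp (C₁ * (H : ℝ) ^ 14) *
            Real.exp ((H : ℝ) ^ 4 * (H : ℝ) ^ C₀)) := by gcongr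
        _ ≤ 1 * (Real.exp (C₁ * (H : ℝ) ^ 14) * Real.exp ((H : ℝ) ^ 4 * (H : ℝ) ^ C₀)) +
            (N : ℝ) ^ 2 * ((N : ℝ) ^ 2 + 1) * (Real.exp (C₁ * (H : ℝ) ^ 14) *
            Real.exp ((H : ℝ) ^ 4 * (H : ℝ) ^ C₀)) := by
            rw [one_mul]
            refine add_le_add Y3 (le_of_eq ?_)
            ring
        _ = (1 + (N : ℝ) ^ 2 * ((N : ℝ) ^ 2 + 1)) * (Real.exp (C₁ * (H : ℝ) ^ 14) *
            Real.exp ((H : ℝ) ^ 4 * (H : ℝ) ^ C₀)) := by ring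
        _ ≤ Real.exp (2 * (H : ℝ) ^ 8) * (Real.exp (C₁ * (H : ℝ) ^ 14) *
            Real.exp ((H : ℝ) ^ 4 * (H : ℝ) ^ C₀)) := by gcongr
        _ = _ := by ring
    rw [norm_mul, norm_mul]
    calc ‖σ θ‖ * ‖σ l‖ * ‖2 * σ l - b‖ ≤
          Real.exp (2 * (H : ℝ) ^ 8 + C₁ * (H : ℝ) ^ 14 + (H : ℝ) ^ 4 * (H : ℝ) ^ C₀) *
            Real.exp (2 * (H : ℝ) ^ 2) * Real.exp (6 * (H : ℝ) ^ 2) := by gcongr
      _ = Real.exp (2 * (H : ℝ) ^ 8 + C₁ * (H : ℝ) ^ 14 + (H : ℝ) ^ 4 * (H : ℝ) ^ C₀ +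
            2 * (H : ℝ) ^ 2 + 6 * (H : ℝ) ^ 2) := by rw [← Real.exp_add, ← Real.exp_add]
      _ ≤ Real.exp ((H : ℝ) ^ (2 * C₀ + 20 + k)) := by
        apply Real.exp_le_exp.2
        have t : ∀ i j : ℕ, i ≤ 14 + C₀ → (H : ℝ) ^ i ≤ (H : ℝ) ^ (14 + C₀) := fun i _ hi =>
          pow_le_pow_right₀ hH1 hi
        have t1 := t 8 0 (by omega)
        have t2 := t 14 0 (by omega)
        have t3 : (H : ℝ) ^ 4 * (H : ℝ) ^ C₀ ≤ (H : ℝ) ^ (14 + C₀) := by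
          rw [← pow_add]
          exact t _ 0 (by omega)
        have t4 := t 2 0 (by omega)
        have t5 : C₁ * (H : ℝ) ^ 14 ≤ C₁ * (H : ℝ) ^ (14 + C₀) := by gcongr; all_goals first | exact hH1 | omega
        calc 2 * (H : ℝ) ^ 8 + C₁ * (H : ℝ) ^ 14 + (H : ℝ) ^ 4 * (H : ℝ) ^ C₀ + 2 * (H : ℝ) ^ 2 +
              6 * (H : ℝ) ^ 2 ≤ (C₁ + 20) * (H : ℝ) ^ (14 + C₀) := by
              have : (0 : ℝ) ≤ (H : ℝ) ^ (14 + C₀) := by positivity
              nlinarith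
          _ ≤ 2 ^ k * (H : ℝ) ^ (14 + C₀) := by gcongr
          _ ≤ (H : ℝ) ^ k * (H : ℝ) ^ (14 + C₀) := by gcongr
          _ = (H : ℝ) ^ (14 + C₀ + k) := by rw [← pow_add]; ring_nf
          _ ≤ (H : ℝ) ^ (2 * C₀ + 20 + k) := pow_le_pow_right₀ hH1 (by omega)

end Pool.Agent.H73.ML
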