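import Pool.Agent.H73.G.RA.NH23.CMd

/-!
# The lower bound of `CMd.lean` for algebraic numbers with denominators
-/

set_option autoImplicit false

open Filter Topology MvPolynomial

noncomputable section

namespace Pool.Agent.H73.ML

open Pool.Agent.NH23.CM (vl liou_main)

variable {m n : ℕ}

/-- the substitution `Y ↦ Z Y` -/
def FZ (F : MvPolynomial (Fin m ⊕ Fin n) ℤ) : MvPolynomial (Fin (m + n) ⊕ Fin n) ℤ :=
  aeval (Sum.elim (fun i => X (Sum.inl (Fin.castAdd n i)))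
    (fun j => X (Sum.inl (Fin.natAdd m j)) * X (Sum.inr j))) F

theorem vl_FZ (F : MvPolynomial (Fin m ⊕ Fin n) ℤ) (q q' : ℕ) (p : Fin m → ℤ) (p' : Fin (m + n) → ℤ)
    (y y' : Fin n → ℂ) (h1 : ∀ i, (p' (Fin.castAdd n i) : ℂ) / q' = (p i : ℂ) / q)
    (h2 : ∀ j, (p' (Fin.natAdd m j) : ℂ) / q' * y' j = y j) : vl (FZ F) q' p' y' = vl F q p y := by
  unfold vl FZ
  have h3 : (aeval (Sum.elim (fun i => (p' i : ℂ) / q') y')).comp
      (aeval (R := ℤ) (Sum.elim (fun i => (X (Sum.inl (Fin.castAdd n i)) : MvPolynomial (Fin (m + n) ⊕ Fin n) ℤ))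
        (fun j => X (Sum.inl (Fin.natAdd m j)) * X (Sum.inr j)))) =
      (aeval (Sum.elim (fun i => (p i : ℂ) / q) y) : MvPolynomial (Fin m ⊕ Fin n) ℤ →ₐ[ℤ] ℂ) := by
    apply MvPolynomial.algHom_ext
    rintro (i | j)
    · rw [AlgHom.comp_apply, aeval_X, Sum.elim_inl, aeval_X, aeval_X, Sum.elim_inl, Sum.elim_inl, h1]
    · rw [AlgHom.comp_apply, aeval_X, Sum.elim_inr, map_mul, aeval_X, aeval_X, aeval_X, Sum.elim_inl,
        Sum.elim_inr, Sum.elim_inr, h2]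
  rw [← h3]
  rfl

/-- **the lower bound, with denominators** -/
theorem liou_den (F : MvPolynomial (Fin m ⊕ Fin n) ℤ) (A : ℝ) (c : ℕ) : ∃ C : ℕ, ∀ q : ℕ, 2 ≤ q →
    ∀ p : Fin m → ℤ, (∀ i, |(p i : ℝ) / q| ≤ A) → ∀ (y : Fin n → ℂ) (M : Fin n → ℕ), (∀ j, 0 < M j) →
    (∀ j, M j ≤ q ^ c) → (∀ j, IsIntegral ℤ ((M j : ℂ) * y j)) →
    (∀ j, (minpoly ℚ ((M j : ℂ) * y j)).natDegree ≤ q ^ c) →
    (∀ j, ∀ x : ℂ, Polynomial.aeval x (minpoly ℚ ((M j : ℂ) * y j)) = 0 → ‖x‖ ≤ Real.exp ((q : ℝ) ^ c)) →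
    vl F q p y ≠ 0 → Real.exp (-(q : ℝ) ^ C) ≤ ‖vl F q p y‖ := by
  classical
  obtain ⟨C', hC'⟩ := liou_main (FZ F) (max A 1) c
  refine ⟨(1 + c * n) * C', fun q hq p hp y M hM hMq hyi hyd hyc hne => ?_⟩
  set P₀ : ℕ := ∏ j, M j with hP₀
  have hP₀0 : 0 < P₀ := Finset.prod_pos fun j _ => hM j
  set q' : ℕ := q * P₀ with hq'
  have hqq' : q ≤ q' := Nat.le_mul_of_pos_right _ hP₀0
  have hq'2 : 2 ≤ q' := hq.trans hqq'
  have hdvd : ∀ j, M j ∣ q' := fun j => (Finset.dvd_prod_of_mem M (Finset.mem_univ j)).mul_left q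
  set p' : Fin (m + n) → ℤ := Fin.addCases (fun i => p i * P₀) (fun j => ((q' / M j : ℕ) : ℤ)) with hp'
  have hq0 : (q : ℂ) ≠ 0 := by exact_mod_cast (by omega : q ≠ 0)
  have hP₀C : (P₀ : ℂ) ≠ 0 := by exact_mod_cast hP₀0.ne'
  have hq'C : (q' : ℂ) ≠ 0 := by exact_mod_cast (by omega : q' ≠ 0)
  have e1 : ∀ i, (p' (Fin.castAdd n i) : ℂ) / q' = (p i : ℂ) / q := by
    intro i
    simp only [hp', Fin.addCases_left, hq']
    push_cast
    field_simp
  have e2 : ∀ j, (p' (Fin.natAdd m j) : ℂ) / q' = 1 / (M j : ℂ) := by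
    intro j
    have hMj : (M j : ℂ) ≠ 0 := by exact_mod_cast (hM j).ne'
    simp only [hp', Fin.addCases_right]
    rw [Int.cast_natCast, Nat.cast_div (hdvd j) hMj]
    field_simp
  have hv : vl (FZ F) q' p' (fun j => (M j : ℂ) * y j) = vl F q p y := by
    apply vl_FZ _ _ _ _ _ _ _ e1
    intro j
    have hMj : (M j : ℂ) ≠ 0 := by exact_mod_cast (hM j).ne'
    rw [e2]
    field_simp
  have hqr : (1 : ℝ) ≤ q := by exact_mod_cast (by omega : 1 ≤ q)
  have hqq'r : (q : ℝ) ≤ q' := by exact_mod_cast hqq'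
  have hA : ∀ i, |(p' i : ℝ) / q'| ≤ max A 1 := by
    intro i
    refine Fin.addCases (fun i => ?_) (fun j => ?_) i
    · have h3 : (p' (Fin.castAdd n i) : ℝ) / q' = (p i : ℝ) / q := by
        apply Complex.ofReal_injective
        push_cast
        exact e1 i
      rw [h3]
      exact (hp i).trans (le_max_left _ _)
    · have h3 : (p' (Fin.natAdd m j) : ℝ) / q' = 1 / (M j : ℝ) := by
        apply Complex.ofReal_injective
        push_cast
        exact e2 j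
      rw [h3]
      refine le_trans ?_ (le_max_right _ _)
      have h4 : (1 : ℝ) ≤ M j := by exact_mod_cast hM j
      rw [abs_of_nonneg (by positivity), div_le_one (by linarith)]
      exact h4
  have hpc : (q : ℝ) ^ c ≤ (q' : ℝ) ^ c := by gcongr
  have hmain := hC' q' hq'2 p' hA (fun j => (M j : ℂ) * y j) hyi
    (fun j => (hyd j).trans (Nat.pow_le_pow_left hqq' c))
    (fun j x hx => (hyc j x hx).trans (Real.exp_le_exp.2 hpc)) (by rw [hv]; exact hne)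
  rw [hv] at hmain
  refine le_trans ?_ hmain
  apply Real.exp_le_exp.2
  apply neg_le_neg
  have hP₀q : P₀ ≤ q ^ (c * n) := by
    calc P₀ ≤ ∏ _j : Fin n, q ^ c := Finset.prod_le_prod' fun j _ => hMq j
      _ = q ^ (c * n) := by rw [Finset.prod_const, Finset.card_univ, Fintype.card_fin, ← pow_mul]
  have hq'q : (q' : ℝ) ≤ (q : ℝ) ^ (1 + c * n) := by
    have h3 : q' ≤ q ^ (1 + c * n) := by
      rw [hq', pow_add, pow_one]
      exact Nat.mul_le_mul_left _ hP₀q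
    exact_mod_cast h3
  calc (q' : ℝ) ^ C' ≤ ((q : ℝ) ^ (1 + c * n)) ^ C' := by gcongr
    _ = (q : ℝ) ^ ((1 + c * n) * C') := by rw [← pow_mul]

end Pool.Agent.H73.ML
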