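import Pool.Agent.H73.G.RB.Q280.MD.JB
import Pool.Agent.H73.ML.Bd

/-!
# Ramanujan's identities for the derivatives of `E₄` and `E₆`
-/

set_option autoImplicit false

open Filter Topology UpperHalfPlane ModularForm EisensteinSeries CongruenceSubgroup MatrixGroups
open H294ZP H294ZP.TF676 H294ZP.TA2
open Pool.Agent.NH23.CM (norm_qq iy iy_im)
open Pool.Agent.Q280.MD (F4 F6 F4_mdiff F6_mdiff F4_slash F6_slash DF4_tendsto DF6_tendsto F4_tendsto F6_tendsto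
  qe qe_tendsto)
open scoped Manifold Derivative

noncomputable section

namespace Pool.Agent.H73.ML

theorem qq_tendsto : Tendsto (fun z : ℍ => qq 1 z) atImInfty (𝓝 0) := by
  refine qe_tendsto.congr fun z => ?_
  unfold qe qq
  simp

theorem E2_tendsto : Tendsto E2 atImInfty (𝓝 1) := by
  have hs := hasSum_choose_mul_geometric_of_norm_lt_one (𝕜 := ℝ) 2 (r := (1 / 2 : ℝ)) (by norm_num)
  have hS : Summable fun n : ℕ => ‖(c2 n : ℂ)‖ * (1 / 2 : ℝ) ^ n := by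
    refine Summable.of_nonneg_of_le (fun n => by positivity) (fun n => ?_) (hs.mul_left 50).summable
    have h2 := c2_le n
    have h3 : (0 : ℝ) < (1 / 2 : ℝ) ^ n := by positivity
    calc ‖(c2 n : ℂ)‖ * (1 / 2 : ℝ) ^ n ≤ 50 * ((n + 2).choose 2 : ℝ) * (1 / 2 : ℝ) ^ n := by gcongr
      _ = _ := by ring
  have hS' : Summable fun n : ℕ => ‖(c2 (n + 1) : ℂ)‖ * (1 / 2 : ℝ) ^ (n + 1) := (summable_nat_add_iff 1).2 hS
  set K : ℝ := ∑' n : ℕ, ‖(c2 (n + 1) : ℂ)‖ * (1 / 2 : ℝ) ^ (n + 1) with hK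
  have hq : ∀ᶠ z : ℍ in atImInfty, ‖qq 1 z‖ ≤ 1 / 2 := by
    have := qq_tendsto.norm
    rw [norm_zero] at this
    exact (this.eventually (gt_mem_nhds (by norm_num : (0 : ℝ) < 1 / 2))).mono fun z hz => hz.le
  have hb : ∀ᶠ z : ℍ in atImInfty, ‖E2 z - 1‖ ≤ 2 * K * ‖qq 1 z‖ := by
    filter_upwards [hq] with z hz
    have h1 := (hasSum_nat_add_iff' 1).2 (c2_sum z)
    have h0 : ∑ i ∈ Finset.range 1, (c2 i : ℂ) * qq 1 z ^ i = 1 := by simp [c2]
    rw [h0] at h1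
    rw [← h1.tsum_eq]
    have h2 : ∀ n : ℕ, ‖(c2 (n + 1) : ℂ) * qq 1 z ^ (n + 1)‖ ≤
        2 * ‖qq 1 z‖ * (‖(c2 (n + 1) : ℂ)‖ * (1 / 2 : ℝ) ^ (n + 1)) := by
      intro n
      rw [norm_mul, norm_pow]
      calc ‖(c2 (n + 1) : ℂ)‖ * ‖qq 1 z‖ ^ (n + 1) = ‖(c2 (n + 1) : ℂ)‖ * (‖qq 1 z‖ ^ n * ‖qq 1 z‖) := by
            rw [pow_succ]
        _ ≤ ‖(c2 (n + 1) : ℂ)‖ * ((1 / 2 : ℝ) ^ n * ‖qq 1 z‖) := by gcongr
        _ = _ := by rw [pow_succ]; ring
    refine (tsum_of_norm_bounded (hS'.hasSum.mul_left (2 * ‖qq 1 z‖)) h2).trans (le_of_eq ?_)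
    rw [← hK]
    ring
  have h1 : Tendsto (fun z => E2 z - 1) atImInfty (𝓝 0) := by
    refine squeeze_zero_norm' hb ?_
    have := qq_tendsto.norm.const_mul (2 * K)
    simpa using this
  have := h1.add_const 1
  simpa using this

def S4 : ℍ → ℂ := Derivative.serreDerivative 4 F4
def S6 : ℍ → ℂ := Derivative.serreDerivative 6 F6

theorem S4_slash (γ : SL(2, ℤ)) : S4 ∣[(6 : ℤ)] γ = S4 := by
  have h4 : Derivative.serreDerivative ((4 : ℤ) : ℂ) F4 ∣[(4 : ℤ) + 2] γ =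
      Derivative.serreDerivative ((4 : ℤ) : ℂ) F4 :=
    Derivative.serreDerivative_slash_invariant F4_mdiff (F4_slash γ)
  have c4 : ((4 : ℤ) : ℂ) = 4 := by norm_num
  rw [c4] at h4
  exact h4

theorem S6_slash (γ : SL(2, ℤ)) : S6 ∣[(8 : ℤ)] γ = S6 := by
  have h4 : Derivative.serreDerivative ((6 : ℤ) : ℂ) F6 ∣[(6 : ℤ) + 2] γ =
      Derivative.serreDerivative ((6 : ℤ) : ℂ) F6 :=
    Derivative.serreDerivative_slash_invariant F6_mdiff (F6_slash γ)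
  have c4 : ((6 : ℤ) : ℂ) = 6 := by norm_num
  rw [c4] at h4
  exact h4

theorem S4_tendsto : Tendsto S4 atImInfty (𝓝 (-1 / 3)) := by
  have h1 : S4 = fun z => D F4 z - 4 * 12⁻¹ * E2 z * F4 z := funext fun z => Derivative.serreDerivative_apply _ _ _
  rw [h1]
  have h2 := DF4_tendsto.sub ((E2_tendsto.const_mul (4 * 12⁻¹ : ℂ)).mul F4_tendsto)
  convert h2 using 2
  norm_num

theorem S6_tendsto : Tendsto S6 atImInfty (𝓝 (-1 / 2)) := by
  have h1 : S6 = fun z => D F6 z - 6 * 12⁻¹ * E2 z * F6 z := funext fun z => Derivative.serreDerivative_apply _ _ _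
  rw [h1]
  have h2 := DF6_tendsto.sub ((E2_tendsto.const_mul (6 * 12⁻¹ : ℂ)).mul F6_tendsto)
  convert h2 using 2
  norm_num

theorem bdd_of_tendsto {f : ℍ → ℂ} {c : ℂ} (h : Tendsto f atImInfty (𝓝 c)) : IsBoundedAtImInfty f :=
  h.isBigO_one ℝ

def M4 : ModularForm 𝒮ℒ 6 where
  toFun := S4
  slash_action_eq' A hA := by
    obtain ⟨A, rfl⟩ := hA
    exact S4_slash A
  holo' := Derivative.serreDerivative_mdifferentiable 4 F4_mdiff
  bdd_at_cusps' hc := by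
    rw [Subgroup.IsArithmetic.isCusp_iff_isCusp_SL2Z] at hc
    rw [OnePoint.isBoundedAt_iff_forall_SL2Z hc]
    intro γ _
    rw [S4_slash]
    exact bdd_of_tendsto S4_tendsto

def M6 : ModularForm 𝒮ℒ 8 where
  toFun := S6
  slash_action_eq' A hA := by
    obtain ⟨A, rfl⟩ := hA
    exact S6_slash A
  holo' := Derivative.serreDerivative_mdifferentiable 6 F6_mdiff
  bdd_at_cusps' hc := by
    rw [Subgroup.IsArithmetic.isCusp_iff_isCusp_SL2Z] at hc
    rw [OnePoint.isBoundedAt_iff_forall_SL2Z hc]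
    intro γ _
    rw [S6_slash]
    exact bdd_of_tendsto S6_tendsto

theorem S4_eq (z : ℍ) : S4 z = -1 / 3 * E₆ z := by
  obtain ⟨c, hc⟩ : ∃ c : ℂ, c • E₆ = M4 :=
    (finrank_eq_one_iff_of_nonzero' E₆ (E_ne_zero _ ⟨3, rfl⟩)).mp
      (Module.rank_eq_one_iff_finrank_eq_one.mp levelOne_weight_six_rank_one) _
  have h1 : ∀ w : ℍ, S4 w = c * E₆ w := fun w => by
    have := congrArg (fun f : ModularForm 𝒮ℒ 6 => f w) hc
    exact this.symm
  have h2 : Tendsto S4 atImInfty (𝓝 (c * 1)) := (F6_tendsto.const_mul c).congr fun w => (h1 w).symm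
  have h3 := tendsto_nhds_unique h2 S4_tendsto
  rw [h1, ← h3, mul_one]

theorem S6_eq (z : ℍ) : S6 z = -1 / 2 * E₄ z ^ 2 := by
  have hr : Module.rank ℂ (ModularForm 𝒮ℒ 8) = 1 := by
    have := dimension_level_one 8 ⟨4, rfl⟩
    rw [if_neg (by decide)] at this
    simpa using this
  have hne : (E₄.mul E₄ : ModularForm 𝒮ℒ (4 + 4)) ≠ 0 := by
    intro h0
    have h1 : ∀ w : ℍ, E₄ w * E₄ w = 0 := fun w => congrArg (fun f : ModularForm 𝒮ℒ (4 + 4) => f w) h0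
    have h2 : Tendsto (fun w : ℍ => F4 w * F4 w) atImInfty (𝓝 (1 * 1)) := F4_tendsto.mul F4_tendsto
    have h3 : Tendsto (fun w : ℍ => F4 w * F4 w) atImInfty (𝓝 0) :=
      (tendsto_const_nhds (x := (0 : ℂ))).congr fun w => (h1 w).symm
    have := tendsto_nhds_unique h2 h3
    norm_num at this
  obtain ⟨c, hc⟩ : ∃ c : ℂ, c • (E₄.mul E₄ : ModularForm 𝒮ℒ (4 + 4)) = M6 :=
    (finrank_eq_one_iff_of_nonzero' (E₄.mul E₄ : ModularForm 𝒮ℒ (4 + 4)) hne).mp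
      (Module.rank_eq_one_iff_finrank_eq_one.mp hr) _
  have h1 : ∀ w : ℍ, S6 w = c * (E₄ w * E₄ w) := fun w => by
    have := congrArg (fun f : ModularForm 𝒮ℒ 8 => f w) hc
    exact this.symm
  have h2 : Tendsto S6 atImInfty (𝓝 (c * (1 * 1))) :=
    ((F4_tendsto.mul F4_tendsto).const_mul c).congr fun w => (h1 w).symm
  have h3 := tendsto_nhds_unique h2 S6_tendsto
  rw [h1, ← h3]
  ring

/-- **Ramanujan** -/
theorem ram4 (z : ℍ) : D F4 z = (E2 z * E₄ z - E₆ z) / 3 := by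
  have h1 := S4_eq z
  have h2 : S4 z = D F4 z - 4 * 12⁻¹ * E2 z * F4 z := Derivative.serreDerivative_apply _ _ _
  have h3 : F4 z = E₄ z := rfl
  rw [h3] at h2
  linear_combination h1 - h2

theorem ram6 (z : ℍ) : D F6 z = (E2 z * E₆ z - E₄ z ^ 2) / 2 := by
  have h1 := S6_eq z
  have h2 : S6 z = D F6 z - 6 * 12⁻¹ * E2 z * F6 z := Derivative.serreDerivative_apply _ _ _
  have h3 : F6 z = E₆ z := rfl
  rw [h3] at h2
  linear_combination h1 - h2

end Pool.Agent.H73.ML
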