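import Pool.Agent.H73.ML.AxV
import Pool.Agent.H73.ML.Ram

/-!
# `(E₂ - 3 / (π y)) E₄ E₆ / Δ` in terms of `j`, `j'`, `j''`
-/

set_option autoImplicit false

open Filter Topology UpperHalfPlane ModularForm EisensteinSeries CongruenceSubgroup MatrixGroups
open Pool.Agent.TH21.MS (E4 E6 E4_eq E6_eq disc_ne)
open Pool.Agent.Q280.MD (F4 F6 DF4_eq DF6_eq E4_an E6_an)
open scoped Manifold Derivative

noncomputable section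

namespace Pool.Agent.H73.ML

/-- `2 π i` -/
def tpi : ℂ := 2 * Real.pi * Complex.I

theorem tpi_ne : tpi ≠ 0 := by
  have : (Real.pi : ℂ) ≠ 0 := by exact_mod_cast Real.pi_ne_zero
  simp [tpi, this]

theorem dE4 (z : ℍ) : deriv E4 z = tpi * ((E2 z * E4 z - E6 z) / 3) := by
  have h1 := ram4 z
  rw [DF4_eq] at h1
  rw [E4_eq, E6_eq, ← h1, tpi]
  have := tpi_ne
  unfold tpi at this
  field_simp

theorem dE6 (z : ℍ) : deriv E6 z = tpi * ((E2 z * E6 z - E4 z ^ 2) / 2) := by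
  have h1 := ram6 z
  rw [DF6_eq] at h1
  rw [E4_eq, E6_eq, ← h1, tpi]
  have := tpi_ne
  unfold tpi at this
  field_simp

/-- the modular invariant on `ℂ` -/
abbrev J : ℂ → ℂ := Pool.Agent.TH21.MS.jj

theorem J_eq (z : ℂ) : J z = 1728 * E4 z ^ 3 / (E4 z ^ 3 - E6 z ^ 2) := rfl

theorem dJ {τ : ℂ} (hτ : 0 < τ.im) : deriv J τ = -(1728 * tpi) * (E4 τ ^ 2 * E6 τ) / (E4 τ ^ 3 - E6 τ ^ 2) := by
  have h0 : E4 τ ^ 3 - E6 τ ^ 2 ≠ 0 := disc_ne ⟨τ, hτ⟩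
  rw [Pool.Agent.Q280.MD.jj_deriv_eq hτ]
  have h4 := dE4 ⟨τ, hτ⟩
  have h6 := dE6 ⟨τ, hτ⟩
  simp only [UpperHalfPlane.coe_mk] at h4 h6
  rw [h4, h6]
  field_simp
  ring

theorem ddJ {τ : ℂ} (hτ : 0 < τ.im) : deriv (deriv J) τ = -(1728 * tpi ^ 2) *
    (E2 ⟨τ, hτ⟩ * E4 τ ^ 2 * E6 τ / 6 - 2 / 3 * (E4 τ * E6 τ ^ 2) - E4 τ ^ 4 / 2) / (E4 τ ^ 3 - E6 τ ^ 2) := by
  have h0 : E4 τ ^ 3 - E6 τ ^ 2 ≠ 0 := disc_ne ⟨τ, hτ⟩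
  have h4 : HasDerivAt E4 (deriv E4 τ) τ := (E4_an hτ).differentiableAt.hasDerivAt
  have h6 : HasDerivAt E6 (deriv E6 τ) τ := (E6_an hτ).differentiableAt.hasDerivAt
  have h2 : deriv J =ᶠ[𝓝 τ] (fun τ => -(1728 * tpi) * ((E4 ^ 2) τ * E6 τ)) / (E4 ^ 3 - E6 ^ 2) := by
    filter_upwards [(isOpen_lt continuous_const Complex.continuous_im).mem_nhds hτ] with t ht
    exact dJ ht
  have h3 := (((h4.pow 2).mul h6).const_mul (-(1728 * tpi))).div ((h4.pow 3).sub (h6.pow 2)) h0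
  have e4 := dE4 ⟨τ, hτ⟩
  have e6 := dE6 ⟨τ, hτ⟩
  simp only [UpperHalfPlane.coe_mk] at e4 e6
  rw [h2.deriv_eq]
  refine h3.deriv.trans ?_
  simp only [Pi.pow_apply, Pi.sub_apply, Pi.mul_apply]
  rw [e4, e6]
  field_simp
  ring

theorem nz_of_dJ {τ : ℂ} (hτ : 0 < τ.im) (h : deriv J τ ≠ 0) : E4 τ ≠ 0 ∧ E6 τ ≠ 0 := by
  rw [dJ hτ] at h
  constructor
  · intro h0
    apply h
    rw [h0]
    simp
  · intro h0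
    apply h
    rw [h0]
    simp

theorem J_sub {τ : ℂ} (hτ : 0 < τ.im) : J τ - 1728 = 1728 * E6 τ ^ 2 / (E4 τ ^ 3 - E6 τ ^ 2) := by
  have h0 : E4 τ ^ 3 - E6 τ ^ 2 ≠ 0 := disc_ne ⟨τ, hτ⟩
  rw [J_eq]
  field_simp
  ring

/-- `j (j - 1728) ≠ 0` where `j' ≠ 0` -/
theorem JJ_ne {τ : ℂ} (hτ : 0 < τ.im) (h : deriv J τ ≠ 0) : J τ ≠ 0 ∧ J τ - 1728 ≠ 0 := by
  obtain ⟨h4, h6⟩ := nz_of_dJ hτ h
  have h0 : E4 τ ^ 3 - E6 τ ^ 2 ≠ 0 := disc_ne ⟨τ, hτ⟩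
  rw [J_sub hτ, J_eq]
  constructor
  · exact div_ne_zero (mul_ne_zero (by norm_num) (pow_ne_zero 3 h4)) h0
  · exact div_ne_zero (mul_ne_zero (by norm_num) (pow_ne_zero 2 h6)) h0

theorem wt_eq (z : ℍ) : wt z = 1728 * (E4 z * E6 z) / (E4 z ^ 3 - E6 z ^ 2) := by
  have h0 := disc_ne z
  have h1 : (E₄ z ^ 3 - E₆ z ^ 2 : ℂ) ≠ 0 := by rwa [← E4_eq, ← E6_eq]
  rw [wt, discriminant_eq_E₄_cube_sub_E₆_sq, E4_eq, E6_eq]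
  field_simp

/-- **the identity** -/
theorem idt {τ : ℂ} (hτ : 0 < τ.im) (h : deriv J τ ≠ 0) :
    es ⟨τ, hτ⟩ * wt ⟨τ, hτ⟩ = VV (Complex.I / τ.im) (J τ) (deriv J τ) (deriv (deriv J) τ) := by
  obtain ⟨h4, h6⟩ := nz_of_dJ hτ h
  have h0 : E4 τ ^ 3 - E6 τ ^ 2 ≠ 0 := disc_ne ⟨τ, hτ⟩
  have hy : (τ.im : ℂ) ≠ 0 := by exact_mod_cast hτ.ne'
  have hpi : (Real.pi : ℂ) ≠ 0 := by exact_mod_cast Real.pi_ne_zero
  have hI := Complex.I_ne_zero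
  have ht := tpi_ne
  rw [VV, dJ hτ, ddJ hτ, J_sub hτ, J_eq, wt_eq, es]
  simp only [UpperHalfPlane.coe_mk]
  have him : ((UpperHalfPlane.im ⟨τ, hτ⟩ : ℝ) : ℂ) = τ.im := rfl
  rw [him]
  set a := E4 τ
  set b := E6 τ
  set e := E2 ⟨τ, hτ⟩
  set y : ℂ := (τ.im : ℂ)
  have hI2 : Complex.I / y = -(tpi / (2 * Real.pi * y)) * (-1) := by
    unfold tpi
    field_simp
  rw [hI2]
  generalize tpi = p at ht ⊢
  generalize (Real.pi : ℂ) = q at hpi ⊢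
  field_simp
  ring

end Pool.Agent.H73.ML
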