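import Pool.Agent.H73.G.RA.NH23.CoreC
import Pool.Agent.H73.G.RB.Q280.MD.JC
import Pool.Agent.H73.ML.CmT
import Pool.Agent.H73.ML.CoV
import Pool.Agent.H73.ML.Idt

/-!
# The functions `j (T_i)` and `V_i` near a point with good approximations
-/

set_option autoImplicit false

open Filter Topology MvPolynomial UpperHalfPlane

noncomputable section

namespace Pool.Agent.H73.ML

open Pool.Agent.NH23.Core
open Pool.Agent.NH23.Qua
open Pool.Agent.NH23.CM (vl cm_main)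
open Pool.Agent.Y776 (jf)
open Pool.Agent.Y776.AxJ (an_j)

theorem Bdd.mono {B B' : ℝ} {D D' : ℕ} {y : ℂ} (h : Bdd B D y) (hB : B ≤ B') (hD : D ≤ D') : Bdd B' D' y := by
  obtain ⟨M, h1, h2, h3, h4, h5⟩ := h
  exact ⟨M, h1, h2.trans hD, h3, h4.trans hD, fun x hx => (h5 x hx).trans (Real.exp_le_exp.2 hB)⟩

/-! ### The two versions of `j` -/

theorem J_jf {τ : ℂ} (hτ : 0 < τ.im) : jf τ = J τ := by
  rw [Pool.Agent.NH23.Inj.jf_eq hτ]
  exact (Pool.Agent.Q280.MD.jj_eq ⟨τ, hτ⟩).symm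

theorem im_nhds {τ : ℂ} (hτ : 0 < τ.im) : ∀ᶠ s in 𝓝 τ, 0 < s.im :=
  (isOpen_lt continuous_const Complex.continuous_im).mem_nhds hτ

theorem dJ_djf {τ : ℂ} (hτ : 0 < τ.im) : deriv jf τ = deriv J τ := by
  apply Filter.EventuallyEq.deriv_eq
  filter_upwards [im_nhds hτ] with s hs
  exact J_jf hs

theorem ddJ_ddjf {τ : ℂ} (hτ : 0 < τ.im) : deriv (deriv jf) τ = deriv (deriv J) τ := by
  apply Filter.EventuallyEq.deriv_eq
  filter_upwards [im_nhds hτ] with s hs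
  exact dJ_djf hs

/-- no CM point, no zero of `j'` -/
theorem djf_ne {τ : ℂ} (hτ : 0 < τ.im) (hcm : ∀ a b c : ℤ, (a : ℂ) * τ ^ 2 + b * τ + c = 0 → a = 0) :
    deriv jf τ ≠ 0 := by
  rw [dJ_djf hτ]
  intro h0
  obtain ⟨a, b, c, h1, h2⟩ := Pool.Agent.Q280.MD.cm_of_jd hτ h0
  have ha := hcm a b c h2
  rw [ha] at h1 h2
  have h3 : (b : ℂ) * τ + c = 0 := by
    push_cast at h2
    linear_combination h2
  have h4 := congrArg Complex.im h3
  simp only [Complex.add_im, Complex.mul_im, Complex.intCast_re, Complex.intCast_im, Complex.zero_im, zero_mul,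
    add_zero] at h4
  have hb : b = 0 := by
    have := (mul_eq_zero.1 h4).resolve_right hτ.ne'
    exact_mod_cast this
  rw [hb] at h3 h1
  have hc : c = 0 := by
    have h5 : (c : ℂ) = 0 := by
      push_cast at h3
      linear_combination h3
    exact_mod_cast h5
  rw [hc] at h1
  simp at h1

/-! ### The functions -/

variable {m n : ℕ} {ξ : Fin m → ℝ} {A B C : Fin n → MvPolynomial (Fin m) ℤ} {z : Fin n → ℂ}

/-- `i / Im T` at real points -/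
def Lf (A B C : MvPolynomial (Fin m) ℤ) (x : Fin m → ℂ) : ℂ := 2 * Complex.I * aeval x A / NH23.Qua.sq (Df A B C x)

/-- the functions -/
def Yf (A B C : Fin n → MvPolynomial (Fin m) ℤ) (k : Fin n × Fin 2) (x : Fin m → ℂ) : ℂ :=
  (![jf (Tf (A k.1) (B k.1) (C k.1) x), VV (Lf (A k.1) (B k.1) (C k.1) x) (jf (Tf (A k.1) (B k.1) (C k.1) x))
    (deriv jf (Tf (A k.1) (B k.1) (C k.1) x)) (deriv (deriv jf) (Tf (A k.1) (B k.1) (C k.1) x))] : Fin 2 → ℂ) k.2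

theorem sq_ne {D : ℂ} (h : 0 < D.re) : NH23.Qua.sq D ≠ 0 := by
  intro h0
  have := sq_sq D
  rw [h0] at this
  rw [← this] at h
  simp at h

theorem an_Lf (A B C : MvPolynomial (Fin m) ℤ) {x : Fin m → ℂ} (hD : 0 < (Df A B C x).re) :
    AnalyticAt ℂ (Lf A B C) x := by
  have h1 : AnalyticAt ℂ (fun x => NH23.Qua.sq (Df A B C x)) x :=
    AnalyticAt.fun_comp (g := NH23.Qua.sq) (f := Df A B C) (an_sq (Or.inl hD)) (an_Df A B C x)
  exact (analyticAt_const.mul (an_poly A x)).div h1 (sq_ne hD)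

theorem Lf_sq (A B C : MvPolynomial (Fin m) ℤ) {x : Fin m → ℂ} (hD : 0 < (Df A B C x).re) :
    Df A B C x * Lf A B C x ^ 2 + 4 * (aeval x A) ^ 2 = 0 := by
  have h1 := sq_sq (Df A B C x)
  have h2 := sq_ne hD
  rw [Lf]
  generalize NH23.Qua.sq (Df A B C x) = s at h1 h2 ⊢
  rw [← h1]
  field_simp
  rw [Complex.I_sq]
  ring

theorem an_Yf {x : Fin m → ℂ} (k : Fin n × Fin 2) (hA : 0 < (aeval x (A k.1) : ℂ).re)
    (hD : 0 < (Df (A k.1) (B k.1) (C k.1) x).re) (hT : 0 < (Tf (A k.1) (B k.1) (C k.1) x).im)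
    (hd : deriv jf (Tf (A k.1) (B k.1) (C k.1) x) ≠ 0) : AnalyticAt ℂ (Yf A B C k) x := by
  rcases k with ⟨i, l⟩
  have h0 : aeval x (A i) ≠ (0 : ℂ) := by
    intro h0
    simp only at hA
    rw [h0] at hA
    exact lt_irrefl _ hA
  have hTf : AnalyticAt ℂ (Tf (A i) (B i) (C i)) x := an_Tf _ _ _ h0 (Or.inl hD)
  have key : ∀ g : ℂ → ℂ, AnalyticOnNhd ℂ g {t : ℂ | 0 < t.im} →
      AnalyticAt ℂ (fun x => g (Tf (A i) (B i) (C i) x)) x := fun g hg =>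
    AnalyticAt.fun_comp (g := g) (f := Tf (A i) (B i) (C i)) (hg _ hT) hTf
  have k0 := key _ an_j
  have k1 := key _ an_j.deriv
  have k2 := key _ an_j.deriv.deriv
  fin_cases l
  · exact k0
  · exact ((analyticAt_const.mul k0).sub analyticAt_const).sub ((((analyticAt_const.mul k0).mul
      (k0.sub analyticAt_const)).mul (k2.sub ((an_Lf _ _ _ hD).mul k1))).div (k1.pow 2) (pow_ne_zero 2 hd))

/-- `i / Im T` -/
theorem Lf_real (A B C : MvPolynomial (Fin m) ℤ) {a : Fin m → ℝ} (hA : 0 < aeval a A)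
    (hD : 0 < (Df A B C (cx a)).re) : Lf A B C (cx a) = Complex.I / ((Tf A B C (cx a)).im : ℂ) := by
  rw [Df_cx, Complex.ofReal_re] at hD
  have h1 := Real.sqrt_pos.2 hD
  have e1 : Tf A B C (cx a) = ((-aeval a B / (2 * aeval a A) : ℝ) : ℂ) +
      ((Real.sqrt (4 * aeval a A * aeval a C - aeval a B ^ 2) / (2 * aeval a A) : ℝ) : ℂ) * Complex.I := by
    rw [Tf_eq, rt]
    have h3 : (4 * ((aeval a A : ℝ) : ℂ) * ((aeval a C : ℝ) : ℂ) - ((aeval a B : ℝ) : ℂ) ^ 2) =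
        ((4 * aeval a A * aeval a C - aeval a B ^ 2 : ℝ) : ℂ) := by push_cast; ring
    rw [h3, sq_real hD]
    push_cast
    ring
  have e2 : (Tf A B C (cx a)).im = Real.sqrt (4 * aeval a A * aeval a C - aeval a B ^ 2) / (2 * aeval a A) := by
    rw [e1]
    simp only [Complex.add_im, Complex.ofReal_im, Complex.mul_im, Complex.ofReal_re, Complex.I_im, Complex.I_re,
      mul_one, mul_zero, add_zero, zero_add]
  rw [e2, Lf, Df_cx, sq_real hD, aeval_cx]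
  have hA' : ((aeval a A : ℝ) : ℂ) ≠ 0 := by exact_mod_cast hA.ne'
  have hs : ((Real.sqrt (4 * aeval a A * aeval a C - aeval a B ^ 2) : ℝ) : ℂ) ≠ 0 := by exact_mod_cast h1.ne'
  push_cast at hs ⊢
  field_simp

/-- the values at rational points are bounded -/
theorem val_Yf (hd : ∀ i, deriv jf (z i) ≠ 0) (h : Qd ξ A B C z) :
    ∃ c : ℕ, ∀ᶠ x in 𝓝 (cx ξ), ∀ (q : ℕ) (p : Fin m → ℤ), 2 ≤ q → x = cx (fun i => (p i : ℝ) / q) →
      ∀ k, Bdd ((q : ℝ) ^ c) (q ^ c) (Yf A B C k x) := by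
  classical
  set M : ℝ := (∑ i, (‖(aeval (cx ξ) (A i) : ℂ)‖ + ‖(aeval (cx ξ) (B i) : ℂ)‖ + ‖(aeval (cx ξ) (C i) : ℂ)‖)) + 1 with hM
  have hMi : ∀ i, ‖(aeval (cx ξ) (A i) : ℂ)‖ + ‖(aeval (cx ξ) (B i) : ℂ)‖ + ‖(aeval (cx ξ) (C i) : ℂ)‖ + 1 ≤ M := by
    intro i
    have := Finset.single_le_sum (f := fun i => ‖(aeval (cx ξ) (A i) : ℂ)‖ + ‖(aeval (cx ξ) (B i) : ℂ)‖ +
      ‖(aeval (cx ξ) (C i) : ℂ)‖) (fun _ _ => by positivity) (Finset.mem_univ i)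
    linarith
  obtain ⟨k₁, hk₁⟩ := pow_unbounded_of_one_lt M (one_lt_two)
  obtain ⟨C₀, hC₀⟩ := cm_main
  obtain ⟨C₁, hC₁⟩ := cm_T
  set c' := dg A B C + k₁ + 1 with hc'
  have hA1 : ∀ᶠ x in 𝓝 (cx ξ), ∀ i, ‖(aeval x (A i) : ℂ)‖ ≤ M ∧ ‖(aeval x (B i) : ℂ)‖ ≤ M ∧
      ‖(aeval x (C i) : ℂ)‖ ≤ M := by
    rw [eventually_all]
    intro i
    filter_upwards [ev_bd ξ (A i), ev_bd ξ (B i), ev_bd ξ (C i)] with x h1 h2 h3
    have := hMi i
    have n1 := norm_nonneg (aeval (cx ξ) (A i) : ℂ)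
    have n2 := norm_nonneg (aeval (cx ξ) (B i) : ℂ)
    have n3 := norm_nonneg (aeval (cx ξ) (C i) : ℂ)
    exact ⟨by linarith, by linarith, by linarith⟩
  have hself := h.ev.self_of_nhds
  have hd1 : ∀ᶠ x in 𝓝 (cx ξ), ∀ i, deriv jf (Tf (A i) (B i) (C i) x) ≠ 0 := by
    rw [eventually_all]
    intro i
    have h0 : aeval (cx ξ) (A i) ≠ (0 : ℂ) := by
      intro h0
      have := (hself i).1
      rw [h0] at this
      exact lt_irrefl _ this
    have hTf : AnalyticAt ℂ (Tf (A i) (B i) (C i)) (cx ξ) := an_Tf _ _ _ h0 (Or.inl (hself i).2.1)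
    have h2 : AnalyticAt ℂ (fun x => deriv jf (Tf (A i) (B i) (C i) x)) (cx ξ) :=
      AnalyticAt.fun_comp (g := deriv jf) (f := Tf (A i) (B i) (C i)) (an_j.deriv _ (hself i).2.2) hTf
    apply h2.continuousAt.eventually_ne
    rw [h.val i]
    exact hd i
  refine ⟨c' * (C₀ + C₁), ?_⟩
  filter_upwards [h.ev, hA1, hd1] with x e1 e2 e3 q p hq hx k
  rcases k with ⟨i, l⟩
  set a : Fin m → ℝ := fun i => (p i : ℝ) / q with ha
  have hav : ∀ D : MvPolynomial (Fin m) ℤ, ‖(aeval (cx a) D : ℂ)‖ = |aeval a D| := by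
    intro D
    rw [aeval_cx, Complex.norm_real, Real.norm_eq_abs]
  subst hx
  have hre : 0 < aeval a (A i) := by
    have := (e1 i).1
    rwa [aeval_cx, Complex.ofReal_re] at this
  set H : ℕ := q ^ c' with hH
  have hH2 : 2 ≤ H := hq.trans (Nat.le_self_pow (by omega) _)
  obtain ⟨u, v, w, hu0, hu, hv, hw, hroot⟩ := val_pt (A := A) (B := B) (C := C) (hk₁.le) hq (p := p) (a := a) rfl i hre
    (by rw [← hav]; exact (e2 i).1) (by rw [← hav]; exact (e2 i).2.1) (by rw [← hav]; exact (e2 i).2.2) (e1 i).2.2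
  have hq1 : (1 : ℝ) ≤ q := by exact_mod_cast (by omega : 1 ≤ q)
  have hHr : ∀ C : ℕ, C ≤ C₀ + C₁ → (H : ℝ) ^ C ≤ (q : ℝ) ^ (c' * (C₀ + C₁)) := by
    intro C hC
    rw [hH]
    push_cast
    rw [← pow_mul]
    exact pow_le_pow_right₀ hq1 (Nat.mul_le_mul_left _ hC)
  have hHn : ∀ C : ℕ, C ≤ C₀ + C₁ → H ^ C ≤ q ^ (c' * (C₀ + C₁)) := by
    intro C hC
    rw [hH, ← pow_mul]
    exact Nat.pow_le_pow_right (by omega) (Nat.mul_le_mul_left _ hC)
  have hT := (e1 i).2.2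
  have g0 : Bdd ((q : ℝ) ^ (c' * (C₀ + C₁))) (q ^ (c' * (C₀ + C₁))) (jf (Tf (A i) (B i) (C i) (cx a))) := by
    have h1 := hC₀ H hH2 ⟨_, hT⟩ u v w hu0 hu hv hw hroot
    rw [Pool.Agent.NH23.Inj.jf_eq hT]
    refine Bdd.mono (B := (H : ℝ) ^ C₀) (D := H ^ C₀) ⟨1, one_pos, Nat.one_le_pow _ _ (by omega), ?_⟩ (hHr _ (by omega))
      (hHn _ (by omega))
    rw [Nat.cast_one, one_mul]
    exact h1
  have g1 : Bdd ((q : ℝ) ^ (c' * (C₀ + C₁))) (q ^ (c' * (C₀ + C₁)))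
      (VV (Lf (A i) (B i) (C i) (cx a)) (jf (Tf (A i) (B i) (C i) (cx a)))
        (deriv jf (Tf (A i) (B i) (C i) (cx a))) (deriv (deriv jf) (Tf (A i) (B i) (C i) (cx a)))) := by
    have h1 := hC₁ H hH2 ⟨_, hT⟩ u v w hu0 hu hv hw hroot
    have h2 := idt hT (by rw [← dJ_djf hT]; exact e3 i)
    rw [Lf_real _ _ _ hre (e1 i).2.1, J_jf hT, dJ_djf hT, ddJ_ddjf hT, ← h2]
    exact Bdd.mono (B := (H : ℝ) ^ C₁) (D := H ^ C₁) h1 (hHr _ (by omega)) (hHn _ (by omega))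
  fin_cases l
  · exact g0
  · exact g1

end Pool.Agent.H73.ML
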