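import Pool.Agent.H73.G.RA.NH23.FldR
import Pool.Agent.H73.ML.CoW

/-!
# No relations at a point with good approximations, and real fields
-/

set_option autoImplicit false

open Filter Topology MvPolynomial UpperHalfPlane IntermediateField

noncomputable section

namespace Pool.Agent.H73.ML

open Pool.Agent.NH23.Core
open Pool.Agent.NH23.Qua
open Pool.Agent.NH23.Fld
open Pool.Agent.NH23.Pair (Alg)
open Pool.Agent.NH23.Tup (Tpl)
open Pool.Agent.Y776 (jf)
open Pool.Agent.Y776.AxJ (an_j)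

variable {m n N : ℕ} {ξ : Fin m → ℝ} {A B C : Fin n → MvPolynomial (Fin m) ℤ} {z : Fin n → ℂ}

theorem core2V (hξ : Hc ξ) (h : Qd ξ A B C z) (hn : 0 < n)
    (hcm : ∀ i, ∀ a b c : ℤ, (a : ℂ) * z i ^ 2 + b * z i + c = 0 → a = 0)
    (hine : ∀ i k, i ≠ k → ∀ a b c d : ℚ, 0 < a * d - b * c → z k * (c * z i + d) ≠ a * z i + b)
    (e : Fin N ≃ Fin n × Fin 2)
    (F : MvPolynomial (Fin m ⊕ Fin N) ℤ) (h0 : aeval (Sum.elim (cx ξ) fun j => Yf A B C (e j) (cx ξ)) F = (0 : ℂ)) :
    ∀ y : Fin N → ℂ, aeval (Sum.elim (cx ξ) y) F = (0 : ℂ) := by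
  classical
  have hd : ∀ i, deriv jf (z i) ≠ 0 := fun i => djf_ne (h.im i) (hcm i)
  have hself := h.ev.self_of_nhds
  have hd1 : ∀ᶠ x in 𝓝 (cx ξ), ∀ i, deriv jf (Tf (A i) (B i) (C i) x) ≠ 0 := by
    rw [eventually_all]
    intro i
    have h0 : aeval (cx ξ) (A i) ≠ (0 : ℂ) := by
      intro h0
      have := (hself i).1
      rw [h0] at this
      exact lt_irrefl _ this
    have hTf : AnalyticAt ℂ (Tf (A i) (B i) (C i)) (cx ξ) := an_Tf _ _ _ h0 (Or.inl (hself i).2.1)
    have h2 : AnalyticAt ℂ (fun x => deriv jf (Tf (A i) (B i) (C i) x)) (cx ξ) :=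
      AnalyticAt.fun_comp (g := deriv jf) (f := Tf (A i) (B i) (C i)) (an_j.deriv _ (hself i).2.2) hTf
    apply h2.continuousAt.eventually_ne
    rw [h.val i]
    exact hd i
  obtain ⟨c, hc⟩ := val_Yf hd h
  have hrel := core_abs hξ (Y := fun j x => Yf A B C (e j) x) (fun j => an_Yf (e j) (hself _).1 (hself _).2.1
    (hself _).2.2 (by rw [h.val]; exact hd _)) (c := c) (by
      filter_upwards [hc] with x hx q p hq hxq j
      exact hx q p hq hxq (e j)) F h0
  have hev := (hrel.and h.ev).and hd1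
  -- the direction
  have hA0 : ∀ i, A i ≠ 0 := by
    intro i hi
    have := h.pos i
    rw [hi, map_zero] at this
    exact lt_irrefl _ this
  obtain ⟨x₀, hx₀⟩ : ∃ x₀ : Fin m → ℂ, eval x₀ (∏ i, Qf (A i) (B i) (C i) (z i)) ≠ 0 := by
    by_contra hcon
    push Not at hcon
    have h1 : (∏ i, Qf (A i) (B i) (C i) (z i)) = 0 := MvPolynomial.funext fun x => by rw [hcon x, map_zero]
    obtain ⟨i, _, hi⟩ := Finset.prod_eq_zero_iff.1 h1
    exact Qf_ne (hA0 i) (hcm i) hi
  rw [map_prod] at hx₀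
  have hx : ∀ i, eval x₀ (Qf (A i) (B i) (C i) (z i)) ≠ 0 := fun i hi =>
    hx₀ (Finset.prod_eq_zero (Finset.mem_univ i) hi)
  set l : ℂ → Fin m → ℂ := fun t k => cx ξ k + t * (x₀ k - cx ξ k) with hl
  have hlan : ∀ t, AnalyticAt ℂ l t := by
    intro t
    rw [analyticAt_pi_iff]
    intro k
    exact analyticAt_const.add (analyticAt_id.mul analyticAt_const)
  have hl0 : l 0 = cx ξ := by
    funext k
    simp [hl]
  have hl1 : l 1 = x₀ := by
    funext k
    simp [hl]
  have hlt : Tendsto l (𝓝 0) (𝓝 (cx ξ)) := by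
    have := (hlan 0).continuousAt.tendsto
    rwa [hl0] at this
  obtain ⟨r, hr, hball⟩ := Metric.eventually_nhds_iff_ball.1 (hlt.eventually hev)
  set U := Metric.ball (0 : ℂ) r with hU
  have h0U : (0 : ℂ) ∈ U := Metric.mem_ball_self hr
  set τ : Fin n → ℂ → ℂ := fun i t => Tf (A i) (B i) (C i) (l t) with hτ
  set lam : Fin n → ℂ → ℂ := fun i t => Lf (A i) (B i) (C i) (l t) with hlam
  have hτ0 : ∀ i, τ i 0 = z i := by
    intro i
    rw [hτ]
    simp only
    rw [hl0]
    exact h.val i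
  have hAne : ∀ i, ∀ t ∈ U, aeval (l t) (A i) ≠ (0 : ℂ) := by
    intro i t ht h1
    have h2 := ((hball t ht).1.2 i).1
    rw [h1] at h2
    exact lt_irrefl _ h2
  have hroot : ∀ i, ∀ t ∈ U, aeval (l t) (A i) * τ i t ^ 2 + aeval (l t) (B i) * τ i t + aeval (l t) (C i) = 0 :=
    fun i t ht => rt_root (hAne i t ht)
  have hlev : ∀ (R : Type) [CommRing R] [Algebra ℤ R] (φ : R →+* ℂ) (g : Fin m → R) (t : ℂ) (P : MvPolynomial (Fin m) ℤ),
      (∀ k, φ (g k) = l t k) → φ (aeval g P) = aeval (l t) P := by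
    intro R _ _ φ g t P hg
    rw [hom_aeval]
    congr 2
    exact funext hg
  have htpl : Tpl U τ :=
    { op := Metric.isOpen_ball
      conn := (convex_ball _ _).isPreconnected
      ne := ⟨0, h0U⟩
      an := fun i t ht => AnalyticAt.fun_comp (g := Tf (A i) (B i) (C i)) (f := l)
        (an_Tf _ _ _ (hAne i t ht) (Or.inl ((hball t ht).1.2 i).2.1)) (hlan t)
      im := fun i t ht => ((hball t ht).1.2 i).2.2
      nc := by
        intro i c
        by_contra hcon
        push Not at hcon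
        have hc : c = z i := by rw [← hcon 0 h0U, hτ0]
        subst hc
        have han : AnalyticOnNhd ℂ (fun t => eval (l t) (Qf (A i) (B i) (C i) (z i))) Set.univ := by
          intro t _
          have h1 := (AnalyticOnNhd.eval_mvPolynomial (𝕜 := ℂ) (Qf (A i) (B i) (C i) (z i))) (l t) (Set.mem_univ _)
          exact AnalyticAt.fun_comp (g := fun x => eval x (Qf (A i) (B i) (C i) (z i))) (f := l) h1 (hlan t)
        have h1 := han.eqOn_zero_of_preconnected_of_eventuallyEq_zero isPreconnected_univ (Set.mem_univ (0 : ℂ)) (by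
          filter_upwards [Metric.isOpen_ball.mem_nhds h0U] with t ht
          have h2 := hroot i t ht
          rw [hcon t ht] at h2
          rw [Qf_eval, h2]
          rfl)
        have h2 := h1 (Set.mem_univ (1 : ℂ))
        simp only [Pi.zero_apply] at h2
        rw [hl1] at h2
        exact hx i h2
      alg := by
        intro i
        set g : Fin m → MvPolynomial (Fin 2) ℂ := fun k => MvPolynomial.C (cx ξ k) + X 0 * MvPolynomial.C (x₀ k - cx ξ k)
          with hg
        have hgt : ∀ t s : ℂ, ∀ k, eval ![t, s] (g k) = l t k := by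
          intro t s k
          simp [hg, hl]
        have hG : ∀ t s : ℂ, eval ![t, s] (aeval g (A i) * X 1 ^ 2 + aeval g (B i) * X 1 + aeval g (C i)) =
            aeval (l t) (A i) * s ^ 2 + aeval (l t) (B i) * s + aeval (l t) (C i) := by
          intro t s
          rw [map_add, map_add, map_mul, map_mul, map_pow, eval_X, hlev _ _ g t (A i) (hgt t s),
            hlev _ _ g t (B i) (hgt t s), hlev _ _ g t (C i) (hgt t s)]
          rfl
        refine ⟨aeval g (A i) * X 1 ^ 2 + aeval g (B i) * X 1 + aeval g (C i), ?_, ?_⟩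
        · intro hz
          have e0 := hG 0 0
          have e1 := hG 0 1
          have e2 := hG 0 (-1)
          rw [hz, map_zero] at e0 e1 e2
          apply hAne i 0 h0U
          linear_combination (-1 / 2 : ℂ) * e1 + (-1 / 2 : ℂ) * e2 + e0
        · intro t ht
          rw [hG]
          exact hroot i t ht
      inc := by
        intro i k hik a b c d hdet
        refine ⟨0, h0U, ?_⟩
        rw [hτ0, hτ0]
        exact hine i k hik a b c d hdet }
  have hlan' : ∀ i, AnalyticOnNhd ℂ (lam i) U := fun i t ht =>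
    AnalyticAt.fun_comp (g := Lf (A i) (B i) (C i)) (f := l) (an_Lf _ _ _ ((hball t ht).1.2 i).2.1) (hlan t)
  have hlal : ∀ i, Alg U (lam i) := by
    intro i
    set g : Fin m → MvPolynomial (Fin 2) ℂ := fun k => MvPolynomial.C (cx ξ k) + X 0 * MvPolynomial.C (x₀ k - cx ξ k)
      with hg
    have hgt : ∀ t s : ℂ, ∀ k, eval ![t, s] (g k) = l t k := by
      intro t s k
      simp [hg, hl]
    have hG : ∀ t s : ℂ, eval ![t, s] ((4 * aeval g (A i) * aeval g (C i) - aeval g (B i) ^ 2) * X 1 ^ 2 +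
        4 * aeval g (A i) ^ 2) = Df (A i) (B i) (C i) (l t) * s ^ 2 + 4 * (aeval (l t) (A i)) ^ 2 := by
      intro t s
      rw [map_add, map_mul, map_sub, map_mul, map_mul, map_mul, map_pow, map_pow, map_pow, eval_X,
        hlev _ _ g t (A i) (hgt t s), hlev _ _ g t (B i) (hgt t s), hlev _ _ g t (C i) (hgt t s), map_ofNat]
      rfl
    refine ⟨(4 * aeval g (A i) * aeval g (C i) - aeval g (B i) ^ 2) * X 1 ^ 2 + 4 * aeval g (A i) ^ 2, ?_, ?_⟩
    · intro hz
      have e0 := hG 0 0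
      rw [hz, map_zero] at e0
      apply hAne i 0 h0U
      have : (aeval (l 0) (A i) : ℂ) ^ 2 = 0 := by linear_combination (-1 / 4 : ℂ) * e0
      exact pow_eq_zero_iff (two_ne_zero) |>.1 this
    · intro t ht
      rw [hG]
      exact Lf_sq _ _ _ ((hball t ht).1.2 i).2.1
  have hdj : ∀ i, ∀ t ∈ U, deriv jf (τ i t) ≠ 0 := fun i t ht => (hball t ht).2 i
  have hJJ : ∀ i, ∀ t ∈ U, jf (τ i t) ≠ 0 ∧ jf (τ i t) - 1728 ≠ 0 := by
    intro i t ht
    have him := htpl.im i t ht
    have h1 := hdj i t ht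
    rw [dJ_djf him] at h1
    rw [J_jf him]
    exact JJ_ne him h1
  have hloc := locW htpl hn hlan' hlal hdj (fun i t ht => (hJJ i t ht).1) (fun i t ht => (hJJ i t ht).2) 0 h0U
  set G : Fin m ⊕ Fin N → MvPolynomial (Option (Fin n × Fin 2)) ℂ :=
    Sum.elim (fun k => MvPolynomial.C (cx ξ k) + X none * MvPolynomial.C (x₀ k - cx ξ k)) (fun j => X (some (e j))) with hG
  have hGev : ∀ (t : ℂ) (y : Fin n × Fin 2 → ℂ), eval (fun o : Option (Fin n × Fin 2) => o.elim t y) (aeval G F) =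
      aeval (Sum.elim (l t) fun j => y (e j)) F := by
    intro t y
    rw [hom_aeval]
    congr 2
    funext k
    rcases k with k | k
    · simp [hG, hl]
    · simp [hG]
  have hR : aeval G F = 0 := by
    apply hloc
    filter_upwards [Metric.isOpen_ball.mem_nhds h0U] with t ht
    rw [hGev]
    exact (hball t ht).1.1
  intro y
  have h1 := hGev 0 (fun k => y (e.symm k))
  rw [hR, map_zero, hl0] at h1
  simp only [Equiv.symm_apply_apply] at h1
  exact h1.symm

/-- the number `V` at a point of the upper half-plane -/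
def Vn (z : ℂ) : ℂ := VV (Complex.I / (z.im : ℂ)) (jf z) (deriv jf z) (deriv (deriv jf) z)

/-- **the theorem for real fields** -/
theorem mainV {S : Set ℝ} (hS : Hier S) {n : ℕ} {z : Fin n → ℂ} (him : ∀ i, 0 < (z i).im)
    (hquad : ∀ i, ∃ a b c : ℂ, a ∈ adjoin ℚ ((fun x : ℝ => (x : ℂ)) '' S) ∧ b ∈ adjoin ℚ ((fun x : ℝ => (x : ℂ)) '' S) ∧
      c ∈ adjoin ℚ ((fun x : ℝ => (x : ℂ)) '' S) ∧ (a ≠ 0 ∨ b ≠ 0 ∨ c ≠ 0) ∧ a * z i ^ 2 + b * z i + c = 0)
    (hcm : ∀ i, ∀ a b c : ℤ, (a : ℂ) * z i ^ 2 + b * z i + c = 0 → a = 0)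
    (hine : ∀ i k, i ≠ k → ∀ a b c d : ℚ, 0 < a * d - b * c → z k * (c * z i + d) ≠ a * z i + b) {N : ℕ}
    (e : Fin N ≃ Fin n × Fin 2) :
    AlgebraicIndependent (adjoin ℚ ((fun x : ℝ => (x : ℂ)) '' S))
      (fun k => (![jf (z (e k).1), Vn (z (e k).1)] : Fin 2 → ℂ) (e k).2) := by
  classical
  rcases Nat.eq_zero_or_pos n with hn | hn
  · subst hn
    have hN : IsEmpty (Fin N) := ⟨fun k => (e k).1.elim0⟩
    rw [algebraicIndependent_empty_type_iff]
    exact FaithfulSMul.algebraMap_injective _ ℂ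
  apply indep
  intro W hW
  choose a b c ha hb hc hne hroot using hquad
  obtain ⟨T, hT, hTW⟩ := exists_fin (W ∪ Finset.univ.image a ∪ Finset.univ.image b ∪ Finset.univ.image c)
    (S := (fun x : ℝ => (x : ℂ)) '' S) (by
      intro x hx
      simp only [Finset.coe_union, Finset.coe_image, Finset.coe_univ, Set.image_univ, Set.mem_union] at hx
      rcases hx with ((hx | ⟨i, rfl⟩) | ⟨i, rfl⟩) | ⟨i, rfl⟩
      · exact hW hx
      · exact ha i
      · exact hb i
      · exact hc i)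
  obtain ⟨m, ξ, hξT, hξ⟩ := hS (T.image Complex.re) (by
    intro x hx
    obtain ⟨y, hy, rfl⟩ := Finset.mem_image.1 (Finset.mem_coe.1 hx)
    obtain ⟨s, hs, rfl⟩ := hT hy
    exact hs)
  have hrange : Set.range (cx ξ) = (T : Set ℂ) := by
    rw [range_cx hξT]
    ext x
    constructor
    · rintro ⟨y, hy, rfl⟩
      obtain ⟨w, hw, rfl⟩ := Finset.mem_image.1 (Finset.mem_coe.1 hy)
      obtain ⟨s, hs, rfl⟩ := hT hw
      exact hw
    · intro hx
      obtain ⟨s, hs, rfl⟩ := hT hx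
      exact ⟨s, Finset.mem_coe.2 (Finset.mem_image.2 ⟨_, hx, rfl⟩), rfl⟩
  rw [← hrange] at hTW
  have hsub : ∀ x, x ∈ W ∪ Finset.univ.image a ∪ Finset.univ.image b ∪ Finset.univ.image c →
      x ∈ adjoin ℚ (Set.range (cx ξ)) := fun x hx => hTW (Finset.mem_coe.2 hx)
  refine ⟨m, cx ξ, fun x hx => hsub x (by simp [Finset.mem_coe.1 hx]), ?_⟩
  have hex : ∀ i, ∃ A B C : MvPolynomial (Fin m) ℤ, 0 < aeval ξ A ∧
      aeval (cx ξ) A * z i ^ 2 + aeval (cx ξ) B * z i + aeval (cx ξ) C = 0 := fun i =>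
    exists_ABC (him i) (hsub (a i) (by simp)) (hsub (b i) (by simp)) (hsub (c i) (by simp)) (hne i) (hroot i)
  choose A B C hpos heq using hex
  have hQ : Qd ξ A B C z := ⟨him, hpos, heq⟩
  intro F hF
  refine core2V hξ hQ hn hcm hine e F ?_
  rw [← hF]
  congr 2
  congr 1
  funext k
  have hself := hQ.ev.self_of_nhds (e k).1
  have hv := hQ.val (e k).1
  have hL := Lf_real (A (e k).1) (B (e k).1) (C (e k).1) (hpos (e k).1) hself.2.1
  rw [hv] at hL
  rw [Yf, hv, hL]
  rfl

end Pool.Agent.H73.ML
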