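import Mathlib

/-!
# Choosing algebraically independent numbers
-/

set_option autoImplicit false

open Set

noncomputable section

namespace Pool.Agent.H73.ML

/-- a family which generates (algebraically) `N` independent numbers contains `N` independent members -/
theorem exists_sub {K : IntermediateField ℚ ℂ} {N : ℕ} {κ : Type} {w : κ → ℂ} {v : Fin N → ℂ}
    (hv : AlgebraicIndependent K v)
    (hvw : ∀ i, v i ∈ (AlgebraicIndependent.matroid K ℂ).closure (range w)) :
    ∃ f : Fin N → κ, AlgebraicIndependent K (fun i => w (f i)) := by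
  classical
  set M := AlgebraicIndependent.matroid K ℂ with hM
  obtain ⟨I, hI⟩ := M.exists_isBasis (range w) (by simp [hM])
  have hvi : M.Indep (range v) := hv.to_subtype_range
  have h1 : range v ⊆ M.closure I := by
    rw [hI.closure_eq_closure]
    rintro _ ⟨i, rfl⟩
    exact hvw i
  have h2 : (range v).encard ≤ I.encard := by
    have h3 := hvi.encard_le_eRk_of_subset h1
    rw [Matroid.eRk_closure_eq, hI.indep.eRk_eq_encard] at h3
    exact h3
  have h4 : (range v).encard = N := by
    rw [← image_univ, hv.injective.injOn.encard_image, encard_univ]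
    simp
  rw [h4] at h2
  obtain ⟨T, hTI, hT⟩ := Set.exists_subset_encard_eq h2
  have hTf : T.Finite := Set.finite_of_encard_eq_coe hT
  have hTc : T.ncard = N := by
    rw [Set.ncard, hT]
    rfl
  have hfin : Fintype T := hTf.fintype
  have hcard : Fintype.card T = N := by
    rw [← hTc, Set.ncard_eq_toFinset_card', Set.toFinset_card]
  set e : Fin N ≃ T := (Fintype.equivFinOfCardEq hcard).symm with he
  have hr : ∀ i, ∃ k, w k = (e i : ℂ) := fun i => hI.subset (hTI (e i).2)
  choose f hf using hr
  refine ⟨f, ?_⟩
  have h5 : AlgebraicIndependent K ((↑) : I → ℂ) := hI.indep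
  have h6 := h5.comp (fun i : Fin N => (⟨e i, hTI (e i).2⟩ : I)) (by
    intro i k hik
    apply e.injective
    apply Subtype.ext
    exact congrArg (fun x : I => (x : ℂ)) hik)
  convert h6 using 1
  funext i
  exact hf i

/-- adding numbers which are algebraic over the base field -/
theorem add_alg {K : IntermediateField ℚ ℂ} {ι κ : Type} {z : ι → ℂ} {w : κ → ℂ} (hz : AlgebraicIndependent ℚ z)
    (hzK : ∀ i, IsAlgebraic K (z i)) (hw : AlgebraicIndependent K w) : AlgebraicIndependent ℚ (Sum.elim w z) := by
  have h1 : AlgebraicIndependent (algebraicClosure K ℂ) w := hw.algebraicClosure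
  refine hz.sumElim_of_tower (S := algebraicClosure K ℂ) ?_ h1
  rintro _ ⟨i, rfl⟩
  exact ⟨⟨z i, mem_algebraicClosure_iff.2 (hzK i)⟩, rfl⟩

end Pool.Agent.H73.ML
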