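import Pool.Agent.H73.G.RA.NH23.Ind
import Pool.Agent.H73.ML.CoX
import Pool.Agent.H73.ML.Tr

/-!
# The theorem over `ℚ(S)`
-/

set_option autoImplicit false

open Filter Topology MvPolynomial IntermediateField

noncomputable section

namespace Pool.Agent.H73.ML

open Pool.Agent.NH23.Core
open Pool.Agent.NH23.Qua
open Pool.Agent.Y776 (jf)

/-- the field generated by real numbers -/
abbrev KS (S : Set ℝ) : IntermediateField ℚ ℂ := adjoin ℚ ((fun x : ℝ => (x : ℂ)) '' S)

theorem conj_KS {S : Set ℝ} {x : ℂ} (hx : x ∈ KS S) : (starRingEnd ℂ) x = x := by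
  induction hx using IntermediateField.adjoin_induction with
  | mem x hx =>
    obtain ⟨s, -, rfl⟩ := hx
    exact Complex.conj_ofReal s
  | algebraMap q => simp
  | add x y _ _ hx hy => rw [map_add, hx, hy]
  | inv x _ hx => rw [map_inv₀, hx]
  | mul x y _ _ hx hy => rw [map_mul, hx, hy]

theorem quad_alg {K : IntermediateField ℚ ℂ} {a b c z : ℂ} (ha : a ∈ K) (hb : b ∈ K) (hc : c ∈ K)
    (hne : a ≠ 0 ∨ b ≠ 0 ∨ c ≠ 0) (h : a * z ^ 2 + b * z + c = 0) : IsAlgebraic K z := by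
  refine ⟨Polynomial.C ⟨a, ha⟩ * Polynomial.X ^ 2 + Polynomial.C ⟨b, hb⟩ * Polynomial.X + Polynomial.C ⟨c, hc⟩,
    ?_, ?_⟩
  · intro h0
    have h2 := congrArg (fun p => Polynomial.coeff p 2) h0
    have h1 := congrArg (fun p => Polynomial.coeff p 1) h0
    have h3 := congrArg (fun p => Polynomial.coeff p 0) h0
    simp [Polynomial.coeff_X, Polynomial.coeff_C] at h1 h2 h3
    have e1 : b = 0 := by simpa using congrArg Subtype.val h1
    have e2 : a = 0 := by simpa using congrArg Subtype.val h2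
    have e3 : c = 0 := by simpa using congrArg Subtype.val h3
    tauto
  · simp only [map_add, map_mul, map_pow, Polynomial.aeval_X, Polynomial.aeval_C]
    exact h

variable {S : Set ℝ} {n : ℕ} {z : Fin n → ℂ}

/-- `i / Im z` is algebraic over the field -/
theorem lam_alg {w : ℂ} (him : 0 < w.im) (hquad : ∃ a b c : ℂ, a ∈ KS S ∧ b ∈ KS S ∧ c ∈ KS S ∧
    (a ≠ 0 ∨ b ≠ 0 ∨ c ≠ 0) ∧ a * w ^ 2 + b * w + c = 0) : IsAlgebraic (KS S) (Complex.I / (w.im : ℂ)) := by
  obtain ⟨a, b, c, ha, hb, hc, hne, h⟩ := hquad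
  have h1 := quad_alg ha hb hc hne h
  have h2 : IsAlgebraic (KS S) ((starRingEnd ℂ) w) := by
    refine quad_alg ha hb hc hne ?_
    have := congrArg (starRingEnd ℂ) h
    simpa only [map_add, map_mul, map_pow, map_zero, conj_KS ha, conj_KS hb, conj_KS hc] using this
  have h3 : Complex.I / (w.im : ℂ) = (-2) * (w - (starRingEnd ℂ) w)⁻¹ := by
    rw [Complex.sub_conj]
    have hy : (w.im : ℂ) ≠ 0 := by exact_mod_cast him.ne'
    have hI := Complex.I_ne_zero
    push_cast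
    field_simp
    rw [Complex.I_sq]
  rw [h3]
  refine IsAlgebraic.mul ?_ (h1.sub h2).inv
  exact (isAlgebraic_algebraMap (-2 : KS S))

/-- `V` is in the closure of the jets -/
theorem Vn_mem {w : Fin n × Fin 3 → ℂ} (hw : w = fun k => (![jf (z k.1), deriv jf (z k.1), deriv (deriv jf) (z k.1)] :
    Fin 3 → ℂ) k.2) (him : ∀ i, 0 < (z i).im) (hquad : ∀ i, ∃ a b c : ℂ, a ∈ KS S ∧ b ∈ KS S ∧ c ∈ KS S ∧
    (a ≠ 0 ∨ b ≠ 0 ∨ c ≠ 0) ∧ a * z i ^ 2 + b * z i + c = 0) (i : Fin n) :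
    jf (z i) ∈ (AlgebraicIndependent.matroid (KS S) ℂ).closure (Set.range w) ∧
    Vn (z i) ∈ (AlgebraicIndependent.matroid (KS S) ℂ).closure (Set.range w) := by
  rw [AlgebraicIndependent.matroid_closure_eq]
  set A := Algebra.adjoin (KS S) (Set.range w) with hA
  have mA : ∀ k, IsAlgebraic A (w k) := fun k =>
    isAlgebraic_algebraMap (⟨w k, Algebra.subset_adjoin ⟨k, rfl⟩⟩ : A)
  have m0 : IsAlgebraic A (jf (z i)) := by
    have := mA (i, 0)
    rw [hw] at this
    exact this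
  have m1 : IsAlgebraic A (deriv jf (z i)) := by
    have := mA (i, 1)
    rw [hw] at this
    exact this
  have m2 : IsAlgebraic A (deriv (deriv jf) (z i)) := by
    have := mA (i, 2)
    rw [hw] at this
    exact this
  have ml : IsAlgebraic A (Complex.I / ((z i).im : ℂ)) :=
    (lam_alg (him i) (hquad i)).extendScalars (algebraMap (KS S) A).injective
  have mn : ∀ q : ℕ, IsAlgebraic A (q : ℂ) := fun q => by
    have := isAlgebraic_algebraMap (R := A) (A := ℂ) (q : A)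
    simpa using this
  have m7 := mn 7
  have m6912 := mn 6912
  have m6 := mn 6
  have m1728 := mn 1728
  push_cast at m7 m6912 m6 m1728
  refine ⟨m0, ?_⟩
  change IsAlgebraic A (Vn (z i))
  rw [Vn, VV, div_eq_mul_inv]
  exact ((m7.mul m0).sub m6912).sub ((((m6.mul m0).mul (m0.sub m1728)).mul (m2.sub (ml.mul m1))).mul (m1.pow 2).inv)

/-- the points are transcendental -/
theorem tr_pt (hS : Hier S) {w : ℂ} (him : 0 < w.im) (hquad : ∃ a b c : ℂ, a ∈ KS S ∧ b ∈ KS S ∧ c ∈ KS S ∧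
    (a ≠ 0 ∨ b ≠ 0 ∨ c ≠ 0) ∧ a * w ^ 2 + b * w + c = 0)
    (hcm : ∀ a b c : ℤ, (a : ℂ) * w ^ 2 + b * w + c = 0 → a = 0) : Transcendental ℚ w := by
  classical
  intro hw
  obtain ⟨a, b, c, ha, hb, hc, hne, hroot⟩ := hquad
  obtain ⟨T, hT, hTW⟩ := NH23.Fld.exists_fin ({a, b, c} : Finset ℂ) (S := (fun x : ℝ => (x : ℂ)) '' S) (by
      intro x hx
      simp only [Finset.coe_insert, Finset.coe_singleton, Set.mem_insert_iff, Set.mem_singleton_iff] at hx
      rcases hx with rfl | rfl | rfl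
      · exact ha
      · exact hb
      · exact hc)
  obtain ⟨m, ξ, hξT, hξ⟩ := hS (T.image Complex.re) (by
    intro x hx
    obtain ⟨y, hy, rfl⟩ := Finset.mem_image.1 (Finset.mem_coe.1 hx)
    obtain ⟨s, hs, rfl⟩ := hT hy
    exact hs)
  have hrange : Set.range (cx ξ) = (T : Set ℂ) := by
    rw [range_cx hξT]
    ext x
    constructor
    · rintro ⟨y, hy, rfl⟩
      obtain ⟨w, hw, rfl⟩ := Finset.mem_image.1 (Finset.mem_coe.1 hy)
      obtain ⟨s, hs, rfl⟩ := hT hw
      exact hw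
    · intro hx
      obtain ⟨s, hs, rfl⟩ := hT hx
      exact ⟨s, Finset.mem_coe.2 (Finset.mem_image.2 ⟨_, hx, rfl⟩), rfl⟩
  rw [← hrange] at hTW
  obtain ⟨A, B, C, hpos, heq⟩ := exists_ABC him (hTW (by simp)) (hTW (by simp)) (hTW (by simp)) hne hroot
  have hA0 : A ≠ 0 := by
    rintro rfl
    rw [map_zero] at hpos
    exact lt_irrefl _ hpos
  apply Qf_ne (B := B) (C' := C) hA0 hcm
  -- the coefficients are algebraic numbers
  set F := algebraicClosure ℚ ℂ with hF
  have hwF : w ∈ F := mem_algebraicClosure_iff.2 hw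
  obtain ⟨Q, hQ⟩ : ∃ Q : MvPolynomial (Fin m) F, MvPolynomial.map (algebraMap F ℂ) Q = Qf A B C w := by
    refine ⟨MvPolynomial.C ((⟨w, hwF⟩ : F) ^ 2) * map (algebraMap ℤ F) A + MvPolynomial.C (⟨w, hwF⟩ : F) *
      map (algebraMap ℤ F) B + map (algebraMap ℤ F) C, ?_⟩
    have h1 : ∀ P : MvPolynomial (Fin m) ℤ, map (algebraMap F ℂ) (map (algebraMap ℤ F) P) = map (algebraMap ℤ ℂ) P := by
      intro P
      rw [MvPolynomial.map_map]
      congr 1
    rw [map_add, map_add, map_mul, map_mul, map_C, map_C, h1, h1, h1, Qf]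
    rfl
  have hξi : AlgebraicIndependent ℚ (cx ξ) := by
    have h1 := Pool.Agent.NH23.Core.Hc.algInd hξ
    exact h1.map' (f := Algebra.ofId ℝ ℂ |>.restrictScalars ℚ) (by
      intro x y hxy
      exact Complex.ofReal_injective hxy)
  have h2 : AlgebraicIndependent F (cx ξ) := hξi.algebraicClosure
  have h3 : aeval (cx ξ) Q = (0 : ℂ) := by
    have h4 := Qf_eval A B C w (cx ξ)
    rw [← hQ, eval_map, ← aeval_def] at h4
    rw [h4]
    exact heq
  have h4 : Q = 0 := by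
    rw [algebraicIndependent_iff] at h2
    exact h2 Q h3
  rw [← hQ, h4, map_zero]

/-- pairs -/
def sumE (n : ℕ) : Fin n ⊕ Fin n ≃ Fin n × Fin 2 where
  toFun := Sum.elim (fun i => (i, 0)) (fun i => (i, 1))
  invFun k := if k.2 = 0 then Sum.inl k.1 else Sum.inr k.1
  left_inv := by
    rintro (i | i) <;> simp
  right_inv := by
    rintro ⟨i, l⟩
    fin_cases l <;> simp

/-- **everything over the field** -/
theorem main (hS : Hier S) (him : ∀ i, 0 < (z i).im)
    (hquad : ∀ i, ∃ a b c : ℂ, a ∈ KS S ∧ b ∈ KS S ∧ c ∈ KS S ∧ (a ≠ 0 ∨ b ≠ 0 ∨ c ≠ 0) ∧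
      a * z i ^ 2 + b * z i + c = 0)
    (hcm : ∀ i, ∀ a b c : ℤ, (a : ℂ) * z i ^ 2 + b * z i + c = 0 → a = 0)
    (hine : ∀ i k, i ≠ k → ∀ a b c d : ℚ, 0 < a * d - b * c → z k * (c * z i + d) ≠ a * z i + b) :
    AlgebraicIndependent (KS S) (Sum.elim (fun i => jf (z i)) (fun i => Vn (z i))) ∧
    (∃ f : Fin (2 * n) → Fin n × Fin 3, AlgebraicIndependent (KS S)
      (fun k => (![jf (z (f k).1), deriv jf (z (f k).1), deriv (deriv jf) (z (f k).1)] : Fin 3 → ℂ) (f k).2)) ∧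
    (∀ i, IsAlgebraic (KS S) (z i)) ∧ ∀ i, Transcendental ℚ (z i) := by
  have hzalg : ∀ i, IsAlgebraic (KS S) (z i) := by
    intro i
    obtain ⟨a, b, c, ha, hb, hc, hne, h⟩ := hquad i
    exact quad_alg ha hb hc hne h
  refine ⟨?_, ?_, hzalg, fun i => tr_pt hS (him i) (hquad i) (hcm i)⟩
  · have h1 := mainV hS him hquad hcm hine (finSumFinEquiv.symm.trans (sumE n))
    have h2 := h1.comp (finSumFinEquiv : Fin n ⊕ Fin n ≃ Fin (n + n)) finSumFinEquiv.injective
    convert h2 using 1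
    funext k
    simp only [Function.comp_apply, Equiv.trans_apply, Equiv.symm_apply_apply]
    rcases k with i | i
    · rfl
    · rfl
  · set e : Fin (2 * n) ≃ Fin n × Fin 2 := (finProdFinEquiv.symm).trans (Equiv.prodComm _ _) with he
    have h1 := mainV hS him hquad hcm hine e
    obtain ⟨f, hf⟩ := exists_sub (w := fun k : Fin n × Fin 3 =>
      (![jf (z k.1), deriv jf (z k.1), deriv (deriv jf) (z k.1)] : Fin 3 → ℂ) k.2) h1 (by
        intro k
        obtain ⟨g1, g2⟩ := Vn_mem (S := S) rfl him hquad (e k).1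
        generalize (e k).2 = l
        fin_cases l
        · exact g1
        · exact g2)
    exact ⟨f, hf⟩

end Pool.Agent.H73.ML
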